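import Pool.Agent.helper90.DH.SDefs

/-!
# Project dh: (MP_5823cb_al): discrete routing (section 8 of the page), definitions and interface

`y` is the normalised function to be routed (`|y| ≤ 1`, zero outside `[29/100,7/10]`). All rules are tested at the left end points `rlp s m = m/2^s` of the cells.
`D.H s` = new hot target cells of level `s`, `D.K s` = new critical source cells of level `s`, `D.G s n` = label set (for ever) of the critical cell `n` of level `s`.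
`e = 0`: the rules; `e = 1`: enlarged rules (a rule at the level `t` implies the enlarged rule at the level `s ≥ t` for all subcells).
Constants: `W = 2^30` (width of the collars), `2^38` (number of event levels), `2^-30` (threshold of the rule 3), `2^-25` (threshold of the loads).
-/

set_option autoImplicit false

open Filter Topology MeasureTheory
open scoped commutatorElement

namespace Pool.Agent.helper90.DH

open Pool.Agent.helper64.D2

/-- Parameters: `q` labels, windows = cells of level `ell`, first level `s0`, nothing is hot below the level `S1`, `d1` = density, `T s` = bad target cells of level `s`, `cm s i` = maps. -/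
structure RQ where
  q : ℕ
  ell : ℕ
  s0 : ℕ
  S1 : ℕ
  d1 : ℝ
  T : ℕ → Finset ℤ
  cm : ℕ → ℕ → DD

/-- Left end point of the cell `m` of level `s`. -/
noncomputable def rlp (s : ℕ) (m : ℤ) : ℝ := (m : ℝ) / 2 ^ s

/-- The source cell which contains the image of the left end point of the target cell `m`. -/
noncomputable def rcc (P : RQ) (s i : ℕ) (m : ℤ) : ℤ := ci s (ev (P.cm s i) (rlp s m))

/-- The target cell which contains the preimage of the left end point of the source cell `n`. -/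
noncomputable def rbb (P : RQ) (s i : ℕ) (n : ℤ) : ℤ := ci s (ev (P.cm s i)⁻¹ (rlp s n))

/-- `z` is near a cell of a family `A` (`A t` = cells of level `t`), levels at most `s`. -/
def rin (A : ℕ → Finset ℤ) (r : ℝ) (s : ℕ) (z : ℝ) : Prop := ∃ t, t ≤ s ∧ ∃ n ∈ A t, |2 ^ t * z - (n : ℝ)| ≤ r

open Classical in
/-- The levels at most `s` in which `z` is near a cell of the family `A`. -/
noncomputable def rAc (A : ℕ → Finset ℤ) (r : ℝ) (s : ℕ) (z : ℝ) : Finset ℕ :=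
  (Finset.range (s + 1)).filter (fun t => ∃ n ∈ A t, |2 ^ t * z - (n : ℝ)| ≤ r)

/-- Radius of the collars of hot cells. -/
def rrh (e : ℕ) : ℝ := 3 * 2 ^ 30 + 8 * (e : ℝ)

/-- Radius of the collars of critical cells. -/
def rrk (e : ℕ) : ℝ := 12 + 8 * (e : ℝ)

open Classical in
/-- Number of labels which lead from the source cell `n` to the collars of the hot cells. -/
noncomputable def rhp (P : RQ) (H : ℕ → Finset ℤ) (e s : ℕ) (n : ℤ) : ℕ :=
  ((Finset.range P.q).filter (fun k => rin H (rrh e) s (rlp s (rbb P s k n)))).card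

open Classical in
/-- Number of labels which lead from the target cell `m` to the collars of the critical cells. -/
noncomputable def rdg (P : RQ) (K : ℕ → Finset ℤ) (e s : ℕ) (m : ℤ) : ℕ :=
  ((Finset.range P.q).filter (fun i => rin K (rrk e) s (rlp s (rcc P s i m)))).card

/-- Rule 2. -/
def rT2 (H : ℕ → Finset ℤ) (e s : ℕ) (m : ℤ) : Prop := 2 ^ 38 ≤ (rAc H (rrh e) s (rlp s m)).card

open Classical in
/-- Rule 3. -/
def rT3 (P : RQ) (H K : ℕ → Finset ℤ) (e s : ℕ) (m : ℤ) : Prop :=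
  P.q ^ 2 < 2 ^ 30 * ((∑ i ∈ (Finset.range P.q).filter (fun i => |rlp s (rcc P s i m) - 1 / 2| ≤ (22 + (e : ℝ)) / 100), rhp P H e s (rcc P s i m)) +
    P.q * rdg P K e s m)

open Classical in
/-- Rule for critical cells. -/
def rCR (P : RQ) (H K : ℕ → Finset ℤ) (e s : ℕ) (n : ℤ) : Prop :=
  P.q ≤ 100 * ((Finset.range P.q).filter (fun k => rin H (rrh e) s (rlp s (rbb P s k n)) ∨ P.q ≤ 3000 * rdg P K e s (rbb P s k n))).card

/-- Range of the target cells. -/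
noncomputable def rTg (s : ℕ) : Finset ℤ := Finset.Ico (-2 ^ s) (2 * 2 ^ s)

/-- Range of the source cells (cells contained in `[9/32,23/32)`). -/
noncomputable def rSg (s : ℕ) : Finset ℤ := Finset.Ico (9 * 2 ^ (s - 5)) (23 * 2 ^ (s - 5))

/-- The rules at the level `s`. -/
def rFP (P : RQ) (H K : ℕ → Finset ℤ) (s : ℕ) : Prop :=
  (∀ m : ℤ, m ∈ H s ↔ m ∈ rTg s ∧ (∀ t < s, m / 2 ^ (s - t) ∉ H t) ∧ (m ∈ P.T s ∨ rT2 H 0 s m ∨ rT3 P H K 0 s m)) ∧
  ∀ n : ℤ, n ∈ K s ↔ n ∈ rSg s ∧ (∀ t < s, n / 2 ^ (s - t) ∉ K t) ∧ rCR P H K 0 s n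

/-- Number of cells of level `s` of the set `A` in the window `κ`. -/
def rcw (ell s : ℕ) (κ : ℤ) (A : Finset ℤ) : ℕ := (A.filter (fun m => m / 2 ^ (s - ell) = κ)).card

open Classical in
/-- The cells of level `s` which are contained in a cell of the family. -/
noncomputable def rRZ (A : ℕ → Finset ℤ) (s : ℕ) : Finset ℤ := (rTg s).filter (fun m => ∃ t, t ≤ s ∧ m / 2 ^ (s - t) ∈ A t)

/-- The density bounds. -/
def rDs (P : RQ) (H K : ℕ → Finset ℤ) (s : ℕ) : Prop := ∀ κ : ℤ,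
  (rcw P.ell s κ (rRZ H s) : ℝ) ≤ 2 * P.d1 * 2 ^ (s - P.ell) ∧ (rcw P.ell s κ (rRZ K s) : ℝ) ≤ P.d1 * 2 ^ (s - P.ell)

/-- The label sets of the new critical cells of level `s`. -/
def rGK (P : RQ) (K : ℕ → Finset ℤ) (G : ℕ → ℤ → Finset ℕ) (s : ℕ) : Prop :=
  (∀ n ∈ K s, G s n ⊆ Finset.range P.q ∧ P.q ≤ 2 * (G s n).card ∧ ∀ i ∈ G s n, 3000 * rdg P K 0 (s - 1) (rbb P (s - 1) i (n / 2)) < P.q) ∧
  ∀ m : ℤ, 12000 * ((K s ×ˢ Finset.range P.q).filter (fun p => p.2 ∈ G s p.1 ∧ rbb P s p.2 p.1 = m)).card ≤ P.q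

/-- The data are correct at the level `s`. -/
def rGD (P : RQ) (D : RD) (s : ℕ) : Prop := (s < P.S1 → D.H s = ∅ ∧ D.K s = ∅) ∧
  (P.S1 ≤ s → rFP P D.H D.K s ∧ rDs P D.H D.K s ∧ rGK P D.K D.G s)

/-- The data are correct at all levels below `S`. -/
def ROK (P : RQ) (D : RD) (S : ℕ) : Prop := ∀ s < S, rGD P D s

/-! ## Openness and weights -/

/-- `(max 0 x)^2`. -/
noncomputable def rg (x : ℝ) : ℝ := (max 0 x) ^ 2

/-- The bump: at least one on `[0,1]` and near it, zero outside `(-3/2,5/2)`. -/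
noncomputable def rbp (v : ℝ) : ℝ := 2 * rg (1 - ((v - 1 / 2) / 2) ^ 2)

/-- Sum of the bumps of the blocks of `2^30` cells of level `t` which meet `A`. -/
noncomputable def rph (A : Finset ℤ) (t : ℕ) (z : ℝ) : ℝ := ∑ k ∈ A.image (fun n : ℤ => n / (2 ^ 30 : ℤ)), rbp (2 ^ t * z / 2 ^ 30 - (k : ℝ))

/-- Sum over the levels at most `s`. -/
noncomputable def ruu (H : ℕ → Finset ℤ) (s : ℕ) (z : ℝ) : ℝ := ∑ t ∈ Finset.range (s + 1), rph (H t) t z

/-- The openness. -/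
noncomputable def reta (H : ℕ → Finset ℤ) (s : ℕ) (z : ℝ) : ℝ := rg (1 - ruu H s z)

/-- The point at which the openness is evaluated for the label `i` and the source cell `k` of level `s`. -/
noncomputable def rpt (P : RQ) (s i : ℕ) (k : ℤ) : ℝ := ev (P.cm s i)⁻¹ (rlp s k)

/-- The normalisation. -/
noncomputable def rNN (P : RQ) (H : ℕ → Finset ℤ) (s : ℕ) (k : ℤ) : ℝ := ∑ j ∈ Finset.range P.q, reta H s (rpt P s j k)

open Classical in
/-- The weight of the label `i` on the source cell `k` of level `s`. -/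
noncomputable def rwt (P : RQ) (D : RD) (s i : ℕ) (k : ℤ) : ℝ :=
  if h : ∃ t, t ≤ s ∧ k / 2 ^ (s - t) ∈ D.K t then
    (if i ∈ D.G (Nat.find h) (k / 2 ^ (s - Nat.find h)) then 1 / ((D.G (Nat.find h) (k / 2 ^ (s - Nat.find h))).card : ℝ) else 0)
  else if k ∈ rSg s then reta D.H s (rpt P s i k) / rNN P D.H s k else 1 / P.q

/-! ## The interface -/

open Classical in
/-- The bad target cells. -/
noncomputable def rTB (q : ℕ) (c : ℕ → DD) (s0 S1 : ℕ) (y : ℝ → ℝ) (s : ℕ) : Finset ℤ :=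
  (rTg s).filter (fun k => S1 ≤ s ∧ (cell s k ∩ BdS q c s0 S1 (1 / 2 ^ 25) y s).Nonempty)

/-- The parameters of the routing of `y` with the maps `cm`. -/
noncomputable def rPP (q s0 w0 a : ℕ) (cm : ℕ → ℕ → DD) (y : ℝ → ℝ) : RQ :=
  ⟨q, s0 - w0 - 4, s0, s0 + w0 - a * LL w0, 2 ^ (3 * a * LL w0) / 2 ^ (2 * w0), fun s => rTB q (cm s) s0 (s0 + w0 - a * LL w0) y s, cm⟩

/-- **RLC** (short/medium). Locality: the rules and the weights below the level `S` depend only on the maps and on the data of the levels below `S`.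
Proof. Unfold; all quantifiers over levels are bounded by `s` (`rbb P (s-1)`, `rdg P K 0 (s-1)` use the level `s - 1 ≤ s`). -/
def RLC_stmt : Prop := ∀ (q s0 w0 a : ℕ) (cm cm' : ℕ → ℕ → DD) (y : ℝ → ℝ) (D D' : RD) (S : ℕ),
  (∀ s < S, cm s = cm' s ∧ D.H s = D'.H s ∧ D.K s = D'.K s ∧ D.G s = D'.G s) →
  (ROK (rPP q s0 w0 a cm y) D S → ROK (rPP q s0 w0 a cm' y) D' S) ∧
  ∀ s < S, ∀ (i : ℕ) (k : ℤ), rwt (rPP q s0 w0 a cm y) D s i k = rwt (rPP q s0 w0 a cm' y) D' s i k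

/-- **RST** (short). The empty data. -/
def RST_stmt : Prop := ∀ (q s0 w0 a : ℕ) (cm : ℕ → ℕ → DD) (y : ℝ → ℝ), a * LL w0 ≤ w0 →
  ROK (rPP q s0 w0 a cm y) ⟨fun _ => ∅, fun _ => ∅, fun _ _ => ∅⟩ s0

/-- **ROU** (result of section 8). One level of the routing, the weights, and the loads at the end. -/
def ROU_stmt : Prop := ∀ (K0 : ℝ) (m0 : ℕ), 1 ≤ K0 → ∃ (a w1 : ℕ) (δ B0 : ℝ), 0 < δ ∧ 1 ≤ B0 ∧ (∀ w0 : ℕ, w1 ≤ w0 → a * LL w0 ≤ w0) ∧
  ∀ w0 : ℕ, w1 ≤ w0 → ∃ q0 : ℕ, ∀ (q s0 : ℕ), q0 ≤ q → q0 ≤ s0 →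
    ∀ (cm : ℕ → ℕ → DD) (σ : ℕ → ℕ) (y : ℝ → ℝ) (N : ℕ), PA N y → (∀ x, x ∉ Set.Icc (29 / 100 : ℝ) (7 / 10) → y x = 0) → (∀ x, |y x| ≤ 1) →
    ∀ (S : ℕ) (D : RD), s0 ≤ S → S < N → HY K0 w0 a q s0 S m0 cm σ δ →
      (ROK (rPP q s0 w0 a cm y) D S →
        ∃ D' : RD, (∀ s < S, D'.H s = D.H s ∧ D'.K s = D.K s ∧ D'.G s = D.G s) ∧ ROK (rPP q s0 w0 a cm y) D' (S + 1)) ∧
      (ROK (rPP q s0 w0 a cm y) D (S + 1) →
        (∀ (s : ℕ) (k : ℤ), s0 ≤ s → s ≤ S → (∑ i ∈ Finset.range q, rwt (rPP q s0 w0 a cm y) D s i k) = 1 ∧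
          ∀ i < q, |rwt (rPP q s0 w0 a cm y) D s i k| ≤ 2 / q) ∧
        (∀ i < q, ∀ x, |vf q s0 (S + 1) (fun s k => rwt (rPP q s0 w0 a cm y) D s i k) y x| ≤ B0 / q) ∧
        ∀ c : ℕ → DD, (∀ i < q, ∀ x, |ev (c i) x - ev (cm S i) x| ≤ 1 / 2 ^ (σ S + 2)) → ∀ t : ℕ → ℝ, (∀ i, |t i| ≤ 1 / 2 ^ (σ S + 2)) → ∀ x,
          |∑ i ∈ Finset.range q, (vf q s0 (S + 1) (fun s k => rwt (rPP q s0 w0 a cm y) D s i k) y (ev (c i) x + t i) -
            Es s0 y (ev (c i) x + t i) / q)| ≤ 1 / 32)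

end Pool.Agent.helper90.DH
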