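import Pool.Agent.helper69.DH.RDefs2
import Pool.Agent.helper57.DH.SpecL

/-!
# Project d2: (MP_5823cb_al), part R (routing): spec of helper69

Rules: module `XX` is `theorem XX (hYY : YY_stmt) … : XX_stmt` in the file `Pool/Agent/<seat>/DHR/XX.lean`, first line `import Pool.Agent.helper69.DH.SpecR`, then `set_option autoImplicit false`,
`open Filter Topology MeasureTheory`, `open scoped commutatorElement`, `namespace Pool.Agent.helper90.DH`, `open Pool.Agent.helper64.D2`. Auxiliary lemmas are prefixed `XX_`. Hypotheses = the statements named under uses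
(you may use fewer, not more). No `sorry`, no double quotes, no `#` commands, no `native_decide`, no `axiom`.

Notation: cell `k` of level `s` is `[k/2^s,(k+1)/2^s)`; `rlp s k = k/2^s`; `ci s x = ⌊2^s x⌋`; `/` on `ℤ` with a positive divisor is the floor; the cell of level `t ≤ s` which contains the cell `m` of level `s` is `m / 2^(s-t)`.
Windows: cells of level `ell`. Sources: `n`, `x`; targets: `m`, `z`; the maps `ev (P.cm s i)` lead from targets to sources. `2^27` is a number so large that all displacements `1/2^27/2^s` are negligible.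
-/

set_option autoImplicit false

open Filter Topology MeasureTheory
open scoped commutatorElement

namespace Pool.Agent.helper90.DH

open Pool.Agent.helper64.D2

/-! ## Hypotheses -/

open Classical in
/-- Number of pairs (label, target cell of `B`) which lead to `A` (up to 4 cells). -/
noncomputable def ree (P : RQ) (s : ℕ) (A B : Finset ℤ) : ℕ :=
  ((Finset.range P.q ×ˢ B).filter (fun p => ∃ n ∈ A, |rcc P s p.1 p.2 - n| ≤ 4)).card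

/-- Mixing at the level `s`, in discrete form: `A` sources, `B` targets. -/
def rMX (P : RQ) (s : ℕ) : Prop := ∀ A B : Finset ℤ, (∀ n ∈ A, |rlp s n - 1 / 2| ≤ 24 / 100) →
  (∀ κ : ℤ, (rcw P.ell s κ A : ℝ) ≤ 2 ^ 10 * P.d1 * 2 ^ (s - P.ell)) → (ree P s A B : ℝ) ^ 2 ≤ (P.q : ℝ) ^ 2 * A.card * B.card / 2 ^ 104

/-- The map of the label `i` at the level `s` is almost a translation, the displacement is at most half a window. -/
def rMA (P : RQ) (s i : ℕ) : Prop :=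
  (∀ x y : ℝ, |ev (P.cm s i) x - ev (P.cm s i) y - (x - y)| ≤ |x - y| / 2 ^ 27 ∧
    |ev (P.cm s i)⁻¹ x - ev (P.cm s i)⁻¹ y - (x - y)| ≤ |x - y| / 2 ^ 27) ∧
  ∀ x : ℝ, |ev (P.cm s i) x - x| ≤ 1 / 2 ^ (P.ell + 1) ∧ |ev (P.cm s i)⁻¹ x - x| ≤ 1 / 2 ^ (P.ell + 1)

/-- The hypotheses of the routing for the levels `s0 ≤ s ≤ S`. -/
def RHY (P : RQ) (S : ℕ) : Prop :=
  (1 ≤ P.q ∧ 1 ≤ P.ell ∧ P.ell ≤ P.s0 ∧ 216 ≤ P.s0 ∧ P.s0 ≤ P.S1 ∧ P.ell + 34 ≤ P.S1 ∧ 0 < P.d1 ∧ 8 ≤ 2 ^ 10 * P.d1 * 2 ^ (P.S1 - P.ell)) ∧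
  (∀ s < P.S1, P.T s = ∅) ∧
  (∀ s, P.s0 ≤ s → s ≤ S → ∀ i < P.q, rMA P s i ∧ ∀ t, P.s0 ≤ t → t ≤ s → ∀ x : ℝ,
    |ev (P.cm s i) x - ev (P.cm t i) x| ≤ 1 / 2 ^ 27 / 2 ^ t ∧ |ev (P.cm s i)⁻¹ x - ev (P.cm t i)⁻¹ x| ≤ 1 / 2 ^ 27 / 2 ^ t) ∧
  ∀ s, P.S1 ≤ s → s ≤ S → rMX P s ∧ ∀ κ : ℤ, (rcw P.ell s κ (rRZ P.T s) : ℝ) ≤ P.d1 * 2 ^ (s - P.ell)

/-- A family of cells: empty below the level `S1`, in the range, pairwise not nested. -/
def rFam (A : ℕ → Finset ℤ) (S1 s : ℕ) : Prop := (∀ t < S1, A t = ∅) ∧ (∀ t, t ≤ s → A t ⊆ rTg t) ∧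
  ∀ t, t ≤ s → ∀ t' < t, ∀ n ∈ A t, n / 2 ^ (t - t') ∉ A t'

/-- The situation at the level `s` in which the measures are estimated. -/
def RIV (P : RQ) (H K : ℕ → Finset ℤ) (s : ℕ) : Prop := rFam H P.S1 s ∧ rFam K P.S1 s ∧
  (∀ t, t ≤ s → ∀ m ∈ H t, m ∈ P.T t ∨ rT2 H 0 t m ∨ rT3 P H K 0 t m) ∧ (∀ t, t ≤ s → ∀ n ∈ K t, n ∈ rSg t ∧ rCR P H K 0 t n) ∧ rDs P H K s

/-! ## Geometry -/

/-- **rBAS** (short). Arithmetic of cells. uses: nothing. Proof. `ci s x = ⌊2^s x⌋`, `Int.floor_le`, `Int.lt_floor_add_one`; `⌊2^t x⌋ = ⌊2^s x / 2^(s-t)⌋ = ⌊2^s x⌋ / 2^(s-t)` (`Int.floor_div_natCast`-type lemma, or the inequalities directly: `Int.ediv_emod_unique`,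
`Int.le_ediv_iff_mul_le`); `Int.ediv_ediv_eq_ediv_mul`. -/
def rBAS_stmt : Prop :=
  (∀ (s : ℕ) (x : ℝ), rlp s (ci s x) ≤ x ∧ x < rlp s (ci s x) + 1 / 2 ^ s ∧ |2 ^ s * x - (ci s x : ℝ)| ≤ 1) ∧
  (∀ (s t : ℕ) (x : ℝ), t ≤ s → ci t x = ci s x / 2 ^ (s - t)) ∧
  (∀ (s t : ℕ) (m : ℤ), t ≤ s → rlp t (m / 2 ^ (s - t)) ≤ rlp s m ∧ rlp s m < rlp t (m / 2 ^ (s - t)) + 1 / 2 ^ t) ∧
  (∀ (s r t : ℕ) (m : ℤ), t ≤ r → r ≤ s → m / 2 ^ (s - r) / 2 ^ (r - t) = m / 2 ^ (s - t)) ∧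
  (∀ (s : ℕ) (m : ℤ), ci s (rlp s m) = m ∧ m / 2 ^ (s - s) = m) ∧
  (∀ (s : ℕ) (m : ℤ) (x : ℝ), ci s x = m ↔ rlp s m ≤ x ∧ x < rlp s m + 1 / 2 ^ s) ∧
  (∀ (s t : ℕ) (m : ℤ), t ≤ s → (m / 2 ^ (s - t) ∈ rTg t ↔ m ∈ rTg s) ∧ (5 ≤ t → (m / 2 ^ (s - t) ∈ rSg t ↔ m ∈ rSg s))) ∧
  (∀ (s : ℕ) (x : ℝ), 5 ≤ s → x ∈ Set.Ico (9 / 32 : ℝ) (23 / 32) → ci s x ∈ rSg s) ∧
  (∀ (s : ℕ) (n : ℤ), 5 ≤ s → n ∈ rSg s → n ∈ rTg s ∧ 9 / 32 ≤ rlp s n ∧ rlp s n < 23 / 32) ∧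
  ∀ (s : ℕ) (x : ℝ), -1 ≤ x → x < 2 → ci s x ∈ rTg s

/-- **rGEO** (short/medium). uses: rBAS. Points and cells under the maps.
Proof. (1) `u = rlp s m`, `v = rlp t m'`: `|C_s u - C_t v| ≤ |C_s u - C_s v| + |C_s v - C_t v| ≤ (1 + 1/2^27) ρ/2^t + 1/2^27/2^t`, and `rlp s (ci s X) = X - a`, `0 ≤ a < 1/2^s ≤ 1/2^t`, `rlp t (ci t Y) = Y - b`, `0 ≤ b < 1/2^t`, so `|b - a| ≤ 1/2^t`. The same for the inverse maps.
(2) Let `x = B(rlp s n)`, `m = ci s x`, so `rlp s m ∈ (x - 1/2^s, x]`, and `C x = rlp s n`, so `C (rlp s m) ∈ rlp s n + (-1.01,0.01)/2^s`; the floor is between `n - 2` and `n`. (3) `|B(rlp s n) - B(rlp s n')| ≥ (1 - 1/2^27)|n - n'|/2^s`, and both points are in the same cell, so the left side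
is `< 1/2^s`: `|n - n'| ≤ 1`. (4) `rlp s m` is in the window `κ = m/2^(s-ell)`; its image moves by at most half a window, and the window of the image point `x` is `ci ell x = ci s x / 2^(s-ell)`. (5) `|rlp s m - 1/2| ≤ 24/100`, displacement at most `1/4`. -/
def rGEO_stmt : Prop := ∀ (P : RQ) (S : ℕ), RHY P S →
  (∀ (s t i : ℕ) (m m' : ℤ) (ρ : ℝ), P.s0 ≤ t → t ≤ s → s ≤ S → i < P.q → 0 ≤ ρ → |rlp s m - rlp t m'| ≤ ρ / 2 ^ t →
    |rlp s (rcc P s i m) - rlp t (rcc P t i m')| ≤ (ρ + 1 + (ρ + 1) / 2 ^ 27) / 2 ^ t ∧ |rlp s (rbb P s i m) - rlp t (rbb P t i m')| ≤ (ρ + 1 + (ρ + 1) / 2 ^ 27) / 2 ^ t) ∧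
  (∀ (s i : ℕ), P.s0 ≤ s → s ≤ S → i < P.q → (∀ n : ℤ, |rcc P s i (rbb P s i n) - n| ≤ 2) ∧ (∀ n n' : ℤ, rbb P s i n = rbb P s i n' → |n - n'| ≤ 1) ∧
    (∀ m : ℤ, |rcc P s i m / 2 ^ (s - P.ell) - m / 2 ^ (s - P.ell)| ≤ 1 ∧ |rbb P s i m / 2 ^ (s - P.ell) - m / 2 ^ (s - P.ell)| ≤ 1) ∧
    ∀ m : ℤ, |rlp s m - 1 / 2| ≤ 24 / 100 → rcc P s i m ∈ rTg s ∧ rbb P s i m ∈ rTg s ∧ m ∈ rTg s)

/-- **rTRF** (short/medium). uses: rGEO. Transfer of the counts from the level `t` to the level `s`.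
Proof. Third: `|2^r (rlp s m) - 2^r (rlp t m')| ≤ 3` for `r ≤ t`, and `rrh 1 = rrh 0 + 8`. First: for every label `k < q`, by rGEO with `ρ = 3`, `|rlp s (rbb P s k m) - rlp t (rbb P t k m')| ≤ 5/2^t`, so for `r ≤ t` and `n ∈ A r` `|2^r z' - n| ≤ rrh 0` implies `|2^r z - n| ≤ rrh 1`; inclusion of the
filtered sets. Second: the same with `rcc` and `rrk 1 = rrk 0 + 8`. -/
def rTRF_stmt : Prop := ∀ (P : RQ) (S : ℕ), RHY P S → ∀ (s t : ℕ) (A : ℕ → Finset ℤ) (m m' : ℤ), P.s0 ≤ t → t ≤ s → s ≤ S → |rlp s m - rlp t m'| ≤ 3 / 2 ^ t →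
  rhp P A 0 t m' ≤ rhp P A 1 s m ∧ rdg P A 0 t m' ≤ rdg P A 1 s m ∧ (rin A (rrh 0) t (rlp t m') → rin A (rrh 1) s (rlp s m))

/-- **rREF** (medium). uses: rBAS, rGEO, rTRF. A rule at the level `t` implies the enlarged rule at the level `s` for all subcells.
Proof. Put `m' = m/2^(s-t)`, `|rlp s m - rlp t m'| ≤ 1/2^t`. (T2) inclusion of the sets `rAc`. (T3) for every label `i`, by rGEO with `ρ = 1`, `|rlp s (rcc P s i m) - rlp t (rcc P t i m')| ≤ 3/2^t ≤ 1/100`, so the range condition for `e = 0` at the level `t` implies the one for `e = 1` at the level `s`,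
and rTRF compares `rhp` (at the cells `rcc`) and `rdg` (at `m`). Sums of natural numbers over a larger set. (CR) for every label `k`: rGEO with `ρ = 1` for `rbb`, then rTRF for the cells `rbb P t k m'`, `rbb P s k m`. -/
def rREF_stmt : Prop := ∀ (P : RQ) (S : ℕ), RHY P S → ∀ (s t : ℕ) (H K : ℕ → Finset ℤ) (m : ℤ), P.s0 ≤ t → t ≤ s → s ≤ S →
  (rT2 H 0 t (m / 2 ^ (s - t)) → rT2 H 1 s m) ∧ (rT3 P H K 0 t (m / 2 ^ (s - t)) → rT3 P H K 1 s m) ∧ (rCR P H K 0 t (m / 2 ^ (s - t)) → rCR P H K 1 s m)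

/-! ## Counting and mixing in windows -/

/-- **rCNT** (medium). uses: rBAS. Counting the levels near the points of a window.
Proof. Double counting: the left side is `Σ_(t ≤ s) #{m ∈ Q : ∃ n ∈ A t, |2^t rlp s m - n| ≤ r} ≤ Σ_(S1 ≤ t ≤ s) Σ_n #{m ∈ Q : |m/2^(s-t) - n| ≤ r}`, where `n` runs over the elements of `A t` with `n/2^(t-ell) ∈ {κ-1, κ, κ+1}`: indeed `m/2^(s-t)` (real quotient) is in `[κ 2^(t-ell), (κ+1) 2^(t-ell))` and
`r + 1 ≤ 2^(S1-ell) ≤ 2^(t-ell)`. An interval of length `2 r 2^(s-t)` contains at most `2 r 2^(s-t) + 1 ≤ (2r+1) 2^(s-t)` integers. Every `n ∈ A t` has exactly `2^(s-t)` subcells `m'` of level `s` (`m'/2^(s-t) = n`), they are in `rTg s`, in `rRZ A s`, and in the window of `n`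
(`m'/2^(s-ell) = n/2^(t-ell)`); by the third property of `rFam` the sets of subcells of different `(t,n)` are disjoint. So `Σ_(t,n) 2^(s-t)` is at most the number of elements of `rRZ A s` in the three windows. -/
def rCNT_stmt : Prop := ∀ (ell S1 s : ℕ) (A : ℕ → Finset ℤ) (r : ℝ) (κ : ℤ) (Q : Finset ℤ), ell ≤ S1 → S1 ≤ s → 0 ≤ r → r + 1 ≤ 2 ^ (S1 - ell) → rFam A S1 s →
  (∀ m ∈ Q, m / 2 ^ (s - ell) = κ) →
  ∑ m ∈ Q, ((rAc A r s (rlp s m)).card : ℝ) ≤ (2 * r + 1) * (rcw ell s (κ - 1) (rRZ A s) + rcw ell s κ (rRZ A s) + rcw ell s (κ + 1) (rRZ A s))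

/-- **rREE** (short). uses: rGEO. Edges counted from the sources.
Proof. The pair `(n,k)`, `n ∈ A`, `k < q`, `rbb P s k n ∈ Q`, is mapped to `(k, rbb P s k n)`, which is counted in `ree P s A Q` because `|rcc P s k (rbb P s k n) - n| ≤ 2`; every fibre has at most two elements (two elements `n, n'` of the fibre satisfy `|n - n'| ≤ 1`).
`Finset.card_le_mul_card_image` or `Finset.card_le_mul_card_image_of_maps_to`. -/
def rREE_stmt : Prop := ∀ (P : RQ) (S : ℕ), RHY P S → ∀ (s : ℕ) (A Q : Finset ℤ), P.s0 ≤ s → s ≤ S →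
  ((A ×ˢ Finset.range P.q).filter (fun p => rbb P s p.2 p.1 ∈ Q)).card ≤ 2 * ree P s A Q

/-- **rMXT** (short/medium). uses: rGEO. Mixing for target sets in a window.
Proof. `A' = A` restricted to the windows `κ-1, κ, κ+1`. If `m ∈ Q` and `rcc P s i m ∈ A` then `rcc P s i m ∈ A'` (rGEO, windows), so `ree P s A' Q ≥ θ q #Q`. `rMX` for `A'` (`rcw κ' A' ≤ rcw κ' A`): `θ^2 q^2 (#Q)^2 ≤ q^2 #A' #Q/2^104`; divide by `q^2 #Q > 0` (if `Q` is empty nothing to prove). -/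
def rMXT_stmt : Prop := ∀ (P : RQ) (S : ℕ), RHY P S → ∀ (s : ℕ) (A Q : Finset ℤ) (κ : ℤ) (θ : ℝ), P.S1 ≤ s → s ≤ S → 0 < θ → (∀ n ∈ A, |rlp s n - 1 / 2| ≤ 24 / 100) →
  (∀ κ' : ℤ, (rcw P.ell s κ' A : ℝ) ≤ 2 ^ 10 * P.d1 * 2 ^ (s - P.ell)) → (∀ m ∈ Q, m / 2 ^ (s - P.ell) = κ) →
  (∀ m ∈ Q, θ * P.q ≤ (((Finset.range P.q).filter (fun i => rcc P s i m ∈ A)).card : ℝ)) →
  (Q.card : ℝ) ≤ (rcw P.ell s (κ - 1) A + rcw P.ell s κ A + rcw P.ell s (κ + 1) A) / (2 ^ 104 * θ ^ 2)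

/-- **rMXS** (medium). uses: rGEO, rREE. Mixing for source sets in a window.
Proof. Let `A' ⊆ A` with `#A' ≤ 2^10 d1 2^(s-ell)` and `Q'` = `Q` restricted to the windows `κ-1, κ, κ+1`. `θ q #A' ≤ #{(n,k) : n ∈ A', rbb P s k n ∈ Q'} ≤ 2 ree P s A' Q'` (rGEO windows, rREE), and `rMX` for `A'` gives `θ^2 q^2 (#A')^2 ≤ 4 q^2 #A' #Q'/2^104`, so `#A' ≤ 4 β/(2^104 θ^2)`.
If `#A ≤ 2^10 d1 2^(s-ell)` take `A' = A`. Otherwise take `A' ⊆ A` with `#A' = ⌊2^10 d1 2^(s-ell)⌋₊` (`Finset.exists_subset_card_eq`); since `2^10 d1 2^(s-ell) ≥ 2^10 d1 2^(S1-ell) ≥ 8`, `#A' ≥ 2^10 d1 2^(s-ell) - 1 > 2^9 d1 2^(s-ell) ≥ 4 β/(2^104 θ^2)`, a contradiction. -/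
def rMXS_stmt : Prop := ∀ (P : RQ) (S : ℕ), RHY P S → ∀ (s : ℕ) (A Q : Finset ℤ) (κ : ℤ) (θ β : ℝ), P.S1 ≤ s → s ≤ S → 0 < θ → (∀ n ∈ A, |rlp s n - 1 / 2| ≤ 24 / 100) →
  (∀ n ∈ A, n / 2 ^ (s - P.ell) = κ) → (∀ n ∈ A, θ * P.q ≤ (((Finset.range P.q).filter (fun k => rbb P s k n ∈ Q)).card : ℝ)) →
  (rcw P.ell s (κ - 1) Q + rcw P.ell s κ Q + rcw P.ell s (κ + 1) Q : ℝ) ≤ β → 4 * β / (2 ^ 104 * θ ^ 2) ≤ 2 ^ 9 * P.d1 * 2 ^ (s - P.ell) →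
  (A.card : ℝ) ≤ 4 * β / (2 ^ 104 * θ ^ 2)

/-! ## Densities -/

/-- **rDN2** (short). uses: rCNT. Density of the cells which satisfy the enlarged rule 2.
Proof. `2^38 #Q ≤ Σ_(m ∈ Q) (rAc H (rrh 1) s (rlp s m)).card ≤ (2 rrh 1 + 1) · 3 · 2 d1 2^(s-ell)` by rCNT and `rDs`; `rrh 1 = 3·2^30 + 8`, `rrh 1 + 1 ≤ 2^34 ≤ 2^(S1-ell)`, and `6 (6·2^30 + 17) ≤ 2^36`. -/
def rDN2_stmt : Prop := ∀ (P : RQ) (S : ℕ), RHY P S → ∀ (s : ℕ) (H K : ℕ → Finset ℤ), P.S1 ≤ s → s ≤ S → RIV P H K s → ∀ (κ : ℤ) (Q : Finset ℤ),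
  (∀ m ∈ Q, m / 2 ^ (s - P.ell) = κ ∧ rT2 H 1 s m) → (Q.card : ℝ) ≤ P.d1 / 4 * 2 ^ (s - P.ell)

/-- **rDNA** (medium). uses: rBAS, rGEO, rCNT, rMXT, rMXS. Densities of the auxiliary sets.
Proof. (1), (2): `rAc` has at least one element for `m ∈ Q`, so rCNT with `r = rrh 1` (`6 (6·2^30 + 17) ≤ 2^36`) and with `r = rrk 1 = 20` (`3·41 ≤ 2^7`). (3) Let `A1 = {n ∈ rTg s : rin K (rrk 1) s (rlp s n)}`; for `n ∈ A1` there are `t ≤ s` (`t ≥ S1 ≥ 216`) and `n' ∈ K t ⊆ rSg t` with `|rlp s n - rlp t n'| ≤ 20/2^t`, so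
`|rlp s n - 1/2| ≤ 24/100`; by (2) `rcw κ' A1 ≤ 2^7 d1 2^(s-ell)`. If `q ≤ 3000 rdg P K 1 s m` then `(1/3000) q ≤ #{i : rcc P s i m ∈ A1}` (`rin K (rrk 1) s z` implies that `z` is near `[9/32,23/32]`, so the cell is in `rTg s`). rMXT with `θ = 1/3000`: `9·10^6·3·2^7/2^104 ≤ 1`.
(4) Let `Q' = {m ∈ rTg s : rin H (rrh 1) s (rlp s m)}`, `rcw κ' Q' ≤ 2^36 d1 2^(s-ell)` by (1). For `n ∈ Q` the label `k` counted in `rhp P H 1 s n` has `rbb P s k n ∈ Q'` (rGEO (5)). rMXS with `θ = 1/2^32`, `β = 3·2^36 d1 2^(s-ell)`: `4 β/(2^104 θ^2) = 12·2^36·2^64/2^104 d1 2^(s-ell) = (3/4) d1 2^(s-ell)`. -/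
def rDNA_stmt : Prop := ∀ (P : RQ) (S : ℕ), RHY P S → ∀ (s : ℕ) (H K : ℕ → Finset ℤ), P.S1 ≤ s → s ≤ S → RIV P H K s → ∀ (κ : ℤ) (Q : Finset ℤ),
  (∀ m ∈ Q, m / 2 ^ (s - P.ell) = κ) →
  ((∀ m ∈ Q, rin H (rrh 1) s (rlp s m)) → (Q.card : ℝ) ≤ 2 ^ 36 * P.d1 * 2 ^ (s - P.ell)) ∧
  ((∀ n ∈ Q, rin K (rrk 1) s (rlp s n)) → (Q.card : ℝ) ≤ 2 ^ 7 * P.d1 * 2 ^ (s - P.ell)) ∧
  ((∀ m ∈ Q, P.q ≤ 3000 * rdg P K 1 s m) → (Q.card : ℝ) ≤ P.d1 * 2 ^ (s - P.ell)) ∧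
  ((∀ n ∈ Q, |rlp s n - 1 / 2| ≤ 24 / 100 ∧ P.q ≤ 2 ^ 32 * rhp P H 1 s n) → (Q.card : ℝ) ≤ P.d1 * 2 ^ (s - P.ell))

/-- **rDN3** (medium). uses: rBAS, rGEO, rDNA, rMXT. Density of the cells which satisfy the enlarged rule 3.
Proof. `rT3`: `q^2 < 2^30 (Σ + q dg)`, `Σ = Σ_(i ∈ R) rhp P H 1 s (rcc P s i m)`, `dg = rdg P K 1 s m`. So either (a) `q ≤ 2^31 dg`, or (b) `q^2 < 2^31 Σ`. (a): as in rDNA (3) with `A1` (density `≤ 2^7 d1`) and `θ = 1/2^31`: `#Qa ≤ 3·2^7·2^62/2^104 d1 2^(s-ell)`. (b): let `A2 = {n ∈ rTg s : |rlp s n - 1/2| ≤ 24/100, q ≤ 2^32 rhp P H 1 s n}`;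
the terms `i ∈ R` with `rcc ∉ A2` (they satisfy `2^32 rhp < q`; note `23/100 ≤ 24/100`) contribute at most `q · q/2^32`, the others at most `q` each, so `#{i : rcc P s i m ∈ A2} ≥ q/2^32`. By rDNA (4) `rcw κ' A2 ≤ d1 2^(s-ell)`; rMXT with `θ = 1/2^32`: `#Qb ≤ 3·2^64/2^104 d1 2^(s-ell)`. `Q ⊆ Qa ∪ Qb`. -/
def rDN3_stmt : Prop := ∀ (P : RQ) (S : ℕ), RHY P S → ∀ (s : ℕ) (H K : ℕ → Finset ℤ), P.S1 ≤ s → s ≤ S → RIV P H K s → ∀ (κ : ℤ) (Q : Finset ℤ),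
  (∀ m ∈ Q, m / 2 ^ (s - P.ell) = κ ∧ rT3 P H K 1 s m) → (Q.card : ℝ) ≤ P.d1 / 4 * 2 ^ (s - P.ell)

/-- **rDN4** (short/medium). uses: rBAS, rGEO, rDNA, rMXS. Density of the cells which satisfy the enlarged rule for critical cells.
Proof. `Q' = {m ∈ rTg s : rin H (rrh 1) s (rlp s m) ∨ q ≤ 3000 rdg P K 1 s m}`, `rcw κ' Q' ≤ (2^36 + 1) d1 2^(s-ell)` by rDNA (1), (3). `n ∈ rSg s` gives `|rlp s n - 1/2| ≤ 24/100`, the labels counted in `rCR P H K 1 s n` have `rbb P s k n ∈ Q'`, so rMXS with `θ = 1/100`, `β = 3 (2^36 + 1) d1 2^(s-ell)`: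
`4·3·(2^36+1)·10^4/2^104 ≤ 1/4`. -/
def rDN4_stmt : Prop := ∀ (P : RQ) (S : ℕ), RHY P S → ∀ (s : ℕ) (H K : ℕ → Finset ℤ), P.S1 ≤ s → s ≤ S → RIV P H K s → ∀ (κ : ℤ) (Q : Finset ℤ),
  (∀ n ∈ Q, n / 2 ^ (s - P.ell) = κ ∧ n ∈ rSg s ∧ rCR P H K 1 s n) → (Q.card : ℝ) ≤ P.d1 / 4 * 2 ^ (s - P.ell)

/-- **rDNS** (medium). uses: rBAS, rREF, rDN2, rDN3, rDN4. One step of the density estimate.
Proof. `H' = Function.update H s h`. A cell `m ∈ rRZ H' s` has an ancestor `m/2^(s-t) ∈ H' t`, `t ≤ s`; if `t < s` it is in `H t` (so `t ≥ S1`, and the third property of `RIV` holds), if `t = s` it is `m ∈ h`. In both cases one of: `m/2^(s-t) ∈ P.T t`, so `m ∈ rRZ P.T s`; or rule 2, 3 at the level `t`, so `rT2 H 1 s m` or `rT3 P H K 1 s m` by rREF.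
In the window `κ`: at most `(1 + 1/4 + 1/4) d1 2^(s-ell)` cells (RHY, rDN2, rDN3). The same for `K`: the ancestor is in `rSg t` (so `m ∈ rSg s`, rBAS) and satisfies `rCR P H K 0 t`, so `rCR P H K 1 s m`, rDN4. -/
def rDNS_stmt : Prop := ∀ (P : RQ) (S : ℕ), RHY P S → ∀ (s : ℕ) (H K : ℕ → Finset ℤ), P.S1 ≤ s → s ≤ S → RIV P H K s → ∀ h k : Finset ℤ,
  (∀ m ∈ h, m ∈ rTg s ∧ (m ∈ P.T s ∨ rT2 H 0 s m ∨ rT3 P H K 0 s m)) → (∀ n ∈ k, n ∈ rSg s ∧ rCR P H K 0 s n) →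
  rDs P (Function.update H s h) (Function.update K s k) s

/-! ## The fixed point and the label sets -/

/-- **rMON** (short). uses: nothing. The rules are monotone in the data (only the levels `≤ s` matter). Proof. Monotonicity of `rin`, `rAc`, hence of `rhp`, `rdg` and of the sums (`Finset.card_le_card`, `Finset.sum_le_sum`). -/
def rMON_stmt : Prop := ∀ (P : RQ) (H K H' K' : ℕ → Finset ℤ) (e s : ℕ) (m : ℤ), (∀ t, t ≤ s → H t ⊆ H' t ∧ K t ⊆ K' t) →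
  (rT2 H e s m → rT2 H' e s m) ∧ (rT3 P H K e s m → rT3 P H' K' e s m) ∧ (rCR P H K e s m → rCR P H' K' e s m) ∧ rdg P K e s m ≤ rdg P K' e s m ∧ rhp P H e s m ≤ rhp P H' e s m

/-- **rLOC** (short/medium). uses: rMON. Locality.
Proof. Unfold: everything at the level `s` uses only the levels `t ≤ s` of the data and of the maps (`P.cm (s-1)`, `P.cm s`). For the data: rMON in both directions, or rewriting under `t ≤ s`. In `rwt` the proposition `∃ t, t ≤ s ∧ k / 2^(s-t) ∈ D.K t` and `Nat.find` agree because the two predicates are equal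
(`funext`, `propext`), and `ruu` is a sum over `t < s + 1`. -/
def rLOC_stmt : Prop := ∀ (P P' : RQ) (D D' : RD) (s : ℕ), P.q = P'.q → P.ell = P'.ell → P.S1 = P'.S1 → P.d1 = P'.d1 →
  (∀ t, t ≤ s → P.cm t = P'.cm t ∧ P.T t = P'.T t ∧ D.H t = D'.H t ∧ D.K t = D'.K t ∧ D.G t = D'.G t) →
  (rGD P D s → rGD P' D' s) ∧ ∀ (i : ℕ) (k : ℤ), rwt P D s i k = rwt P' D' s i k

/-- **rRIV** (medium). uses: rBAS, rMON. The situation `RIV` for data which are correct below `S`, extended by sets of legal cells.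
Proof. `H' = Function.update D.H S h` etc. The levels `< S1` are empty (`rGD` for `t < S1`). Ranges: `rFP` (`K t ⊆ rSg t ⊆ rTg t`). Not nested: `rFP` for `t < S`, hypothesis for `S`; for `t' < t ≤ S` the set `H' t'` is `D.H t'`. Rules: for `t < S` from `rFP` at `t`, `H'` and `D.H` agree at the levels `≤ t` (rMON). -/
def rRIV_stmt : Prop := ∀ (P : RQ) (S : ℕ), RHY P S → ∀ (D : RD) (h k : Finset ℤ), P.S1 ≤ S → ROK P D S →
  (∀ m ∈ h, m ∈ rTg S ∧ (∀ t < S, m / 2 ^ (S - t) ∉ D.H t) ∧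
    (m ∈ P.T S ∨ rT2 (Function.update D.H S h) 0 S m ∨ rT3 P (Function.update D.H S h) (Function.update D.K S k) 0 S m)) →
  (∀ n ∈ k, n ∈ rSg S ∧ (∀ t < S, n / 2 ^ (S - t) ∉ D.K t) ∧ rCR P (Function.update D.H S h) (Function.update D.K S k) 0 S n) →
  rDs P (Function.update D.H S h) (Function.update D.K S k) S →
  RIV P (Function.update D.H S h) (Function.update D.K S k) S

/-- **rBSE** (short/medium). uses: rBAS. The density bound at the level `S` before new cells are added.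
Proof. If `S = S1` all levels are empty, so `rRZ` is empty. If `S1 < S`: a cell `m ∈ rRZ (update D.H S ∅) S` has an ancestor of level `t < S`, so its parent `m/2` (`m / 2^(S-(S-1))`) is in `rRZ D.H (S-1)` and in the same window; a cell has two children, so `rcw S κ ≤ 2 rcw (S-1) κ ≤ 2·2 d1 2^(S-1-ell) = 2 d1 2^(S-ell)`
(`S - 1 ≥ S1 ≥ ell`), by `rDs` at `S-1` (the density does not change if the level `S` is modified). The same for `K`. -/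
def rBSE_stmt : Prop := ∀ (P : RQ) (S : ℕ), RHY P S → ∀ D : RD, P.S1 ≤ S → ROK P D S → rDs P (Function.update D.H S ∅) (Function.update D.K S ∅) S

/-- **rFIX** (medium/LONG). uses: rMON, rRIV, rBSE, rDNS. Existence of the fixed point.
Proof. If `S < S1` take `h = k = ∅`. If `S1 ≤ S`, let `Ω` be the set of pairs `(h,k)` with `h ⊆ rTg S`, `k ⊆ rSg S` which satisfy the two hypotheses on `h, k` in rRIV and `rDs P (update D.H S h) (update D.K S k) S`. `Ω` is finite (a subset of `(rTg S).powerset ×ˢ (rSg S).powerset`) and contains `(∅,∅)` (rBSE). Take `(h,k) ∈ Ω` with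
`h.card + k.card` maximal (`Finset.exists_max_image`). Let `h'` be the set of `m ∈ rTg S`, not contained in an older hot cell, which satisfy `m ∈ P.T S` or rule 2 or rule 3 for the data with `(h,k)`, and `k'` the same for critical cells. `h ⊆ h'`, `k ⊆ k'`. `rDs` for `(h',k')` by rDNS (with `RIV` from rRIV; note
`Function.update (Function.update D.H S h) S h' = Function.update D.H S h'`), and the cells of `h'`, `k'` satisfy their rules also for the data with `(h',k')` (rMON), so `(h',k') ∈ Ω`, hence `h' = h`, `k' = k` (cardinalities), which is `rFP`. -/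
def rFIX_stmt : Prop := ∀ (P : RQ) (S : ℕ), RHY P S → ∀ D : RD, ROK P D S → ∃ h k : Finset ℤ, (S < P.S1 → h = ∅ ∧ k = ∅) ∧
  (P.S1 ≤ S → rFP P (Function.update D.H S h) (Function.update D.K S k) S ∧ rDs P (Function.update D.H S h) (Function.update D.K S k) S)

/-- **rPEL** (medium). uses: nothing. Assignment of labels by peeling.
Proof. Strong induction on the number of elements of `A` (the hypotheses pass to subsets). `A = ∅`: trivial. Let `c m = #{(n,k) : n ∈ A, k < q, b k n = m}`, `B = {m : q < 12000 c m}` (a subset of the image of `A ×ˢ range q`). `(q/12000) #B ≤ Σ_(m ∈ B) c m = #{(n,k) : b k n ∈ B}`, so by the hypothesis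
`(#B)^2 ≤ 12000^2·4·#A #B/2^104`, `#B ≤ 4·12000^2/2^104 #A`. Let `A' = {n ∈ A : q < 4 #{k < q : b k n ∈ B}}`: `(q/4)^2 (#A')^2 ≤ 4 q^2 #A' #B/2^104`, so `#A' ≤ 64/2^104 #B < #A`. Induction gives `G'` on `A'`. Put `G n = G' n` for `n ∈ A'` and `G n = {k < q : k ∉ Bad n, b k n ∉ B}` for `n ∈ A \ A'`: at least `q - q/100 - q/4 ≥ q/2`
elements. For `m ∉ B` the number in question is at most `c m ≤ q/12000`; for `m ∈ B` only `n ∈ A'` contribute, at most `q/12000` by induction. -/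
def rPEL_stmt : Prop := ∀ (q : ℕ) (A : Finset ℤ) (b : ℕ → ℤ → ℤ) (Bad : ℤ → Finset ℕ), 1 ≤ q → (∀ n ∈ A, 100 * (Bad n).card < q) →
  (∀ A' ⊆ A, ∀ Q : Finset ℤ, (((A' ×ˢ Finset.range q).filter (fun p => b p.2 p.1 ∈ Q)).card : ℝ) ^ 2 ≤ 4 * (q : ℝ) ^ 2 * A'.card * Q.card / 2 ^ 104) →
  ∃ G : ℤ → Finset ℕ, (∀ n ∈ A, G n ⊆ Finset.range q ∧ Disjoint (G n) (Bad n) ∧ q ≤ 2 * (G n).card) ∧
    ∀ m : ℤ, 12000 * ((A ×ˢ Finset.range q).filter (fun p => p.2 ∈ G p.1 ∧ b p.2 p.1 = m)).card ≤ q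

/-- **rGEX** (medium). uses: rBAS, rREE, rMON, rPEL. The label sets of the new critical cells.
Proof. rPEL with `A = k`, `b = rbb P S`, `Bad n = {i < q : q ≤ 3000 rdg P D.K 0 (S-1) (rbb P (S-1) i (n/2))}` (`rdg P (update D.K S k) 0 (S-1)` is the same number). The mixing hypothesis: rREE and `rMX P S` for `A' ⊆ k`: `rcw κ A' ≤ rcw κ (rRZ (update D.K S k) S) ≤ d1 2^(S-ell)`, and `n ∈ rSg S` gives `|rlp S n - 1/2| ≤ 24/100`.
`100 #Bad n < q`: if `S = S1` then all `D.K t` are empty, `rdg = 0` and `Bad n = ∅`. If `S1 < S`: the parent `n/2` is in `rSg (S-1)` (rBAS), it is not in a cell of `D.K t`, `t ≤ S-1` (`n/2/2^(S-1-t) = n/2^(S-t)`), so by `rFP` at the level `S-1` it does not satisfy `rCR P D.H D.K 0 (S-1)`, and `Bad n` is a subset of the set counted there. -/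
def rGEX_stmt : Prop := ∀ (P : RQ) (S : ℕ), RHY P S → ∀ (D : RD) (h k : Finset ℤ), P.S1 ≤ S → ROK P D S →
  rFP P (Function.update D.H S h) (Function.update D.K S k) S → rDs P (Function.update D.H S h) (Function.update D.K S k) S →
  ∃ g : ℤ → Finset ℕ, rGK P (Function.update D.K S k) (Function.update D.G S g) S

/-- **rEXT** (short/medium). uses: rLOC, rFIX, rGEX. Extension by one level. Proof. `D' = ⟨update D.H S h, update D.K S k, update D.G S g⟩`; the levels `< S` by rLOC (`P' = P`). -/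
def rEXT_stmt : Prop := ∀ (P : RQ) (S : ℕ), RHY P S → ∀ D : RD, ROK P D S →
  ∃ D' : RD, (∀ s < S, D'.H s = D.H s ∧ D'.K s = D.K s ∧ D'.G s = D.G s) ∧ ROK P D' (S + 1)

end Pool.Agent.helper90.DH
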