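import Pool.Agent.helper69.DH.SpecR

/-!
# Project d2: (MP_5823cb_al), part R (routing), second half: openness, weights, usage, load, interface. Spec of helper69

Rules as in `SpecR.lean` (first line of a module: `import Pool.Agent.helper69.DH.SpecR2`; statements of `Pool/Agent/helper57/DH/SpecL.lean` (`LBM LCS LEA LEB LEN`) and `MIX_stmt`, `NMX_stmt` of Iface may be hypotheses where they are named under uses).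
-/

set_option autoImplicit false

open Filter Topology MeasureTheory
open scoped commutatorElement

namespace Pool.Agent.helper90.DH

open Pool.Agent.helper64.D2

/-! ## The openness -/

/-- **rBMP** (short/medium). uses: nothing. The bump `rbp v = 2 rg(p)`, `p = 1 - ((v-1/2)/2)^2`.
Proof. `rg (a+d) - rg a - 2 max(0,a) d` is between `0` and `d^2` (cases on the signs of `a`, `a+d`). With `lam = -2 max(0,p) (v - 1/2)` and `d = p(v+h) - p(v) = -(v-1/2) h/2 - h^2/4`: `rbp (v+h) - rbp v - lam h = - max(0,p) h^2 + 2 r`, `0 ≤ r ≤ d^2`. If `|v - 1/2| ≤ 2 + |h|` then `|d| ≤ |h| (1 + |h|)`,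
`2 d^2 ≤ 3 h^2`; if `|v - 1/2| > 2 + |h|` everything is `0`. `|lam| = 4 w (1-w^2) ≤ 8/5` with `w = |v-1/2|/2 ≤ 1` (`w^3 - w + 2/5 ≥ 0`: `(w - 29/50)^2 (w + 58/50) ≥ 0`). If `|v-1/2| ≤ 1/2 + 1/2^20` then `p ≥ 93/100`. -/
def rBMP_stmt : Prop := ∀ v : ℝ, 0 ≤ rbp v ∧ (|v - 1 / 2| ≤ 1 / 2 + 1 / 2 ^ 20 → 1 ≤ rbp v) ∧ (2 ≤ |v - 1 / 2| → rbp v = 0) ∧
  ∃ lam : ℝ, |lam| ≤ 8 / 5 ∧ (2 ≤ |v - 1 / 2| → lam = 0) ∧ ∀ h : ℝ, |h| ≤ 1 / 100 →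
    |rbp (v + h) - rbp v - lam * h| ≤ 4 * h ^ 2 ∧ |rbp (v + h) - rbp v| ≤ 2 * |h|

/-- **rBPH** (medium). uses: rBMP. The sum of the bumps of one level.
Proof. Put `v = 2^t z/2^30`. (2) for `n ∈ A` with `|2^t z - n| ≤ 4`, `k = n/2^30` (floor): `n/2^30 ∈ [k, k+1)` as real numbers, so `|v - k - 1/2| ≤ 1/2 + 4/2^30`. (3) if `rbp (v' - k) ≠ 0`, `v' = 2^t (z+h)/2^30`, `k = n/2^30`, `n ∈ A`, then `|v' - k - 1/2| < 2`, `|v' - n/2^30| < 5/2`, `|2^t z - n| < (5/2) 2^30 + 2`.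
(4) `h' = 2^t h/2^30`, `|h'| ≤ 1/2^29`. Only the `k` with `|v - k - 1/2| < 2 + 1/2^20` matter (for the others all terms vanish, `lam_k = 0`), these are at most `5` integers (an interval of length `< 5`). Sum the estimates of rBMP: `5·8/5`, `5·4`, `5·2`; the slope is multiplied by `2^t/2^30`. -/
def rBPH_stmt : Prop := ∀ (A : Finset ℤ) (t : ℕ) (z : ℝ), 0 ≤ rph A t z ∧ ((∃ n ∈ A, |2 ^ t * z - (n : ℝ)| ≤ 4) → 1 ≤ rph A t z) ∧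
  ((∀ n ∈ A, 3 * 2 ^ 30 - 8 < |2 ^ t * z - (n : ℝ)|) → ∀ h : ℝ, |2 ^ t * h| ≤ 2 → rph A t (z + h) = 0) ∧
  ∃ lam : ℝ, |lam| ≤ 8 * 2 ^ t / 2 ^ 30 ∧ ∀ h : ℝ, |2 ^ t * h| ≤ 2 →
    |rph A t (z + h) - rph A t z - lam * h| ≤ 20 * (2 ^ t * h / 2 ^ 30) ^ 2 ∧ |rph A t (z + h) - rph A t z| ≤ 10 * |2 ^ t * h| / 2 ^ 30

/-- The sum of `2^(t-s)` over the levels `t ≤ s` in which `z` is near a hot cell. -/
noncomputable def rsg (H : ℕ → Finset ℤ) (s : ℕ) (z : ℝ) : ℝ := ∑ t ∈ rAc H (3 * 2 ^ 30 - 8) s z, (2 : ℝ) ^ t / 2 ^ s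

/-- **rETA** (medium). uses: rBPH. The openness at the level `s`, at distances at most `(5/4)/2^s`.
Proof. `ruu` is a sum of nonnegative terms, `rg` is nondecreasing, `0 ≤ rg (1 - u) ≤ 1` for `u ≥ 0`. If `rAc … = ∅` then all `rph (H t) t p`, `t ≤ s`, vanish (`|2^t (p - z)| ≤ 5/4`), `rg 1 = 1`. If `|2^t z - n| ≤ 1` then `|2^t p - n| ≤ 9/4 ≤ 4`, `ruu ≥ 1`, `rg (1 - u) = 0`. Expansion: let `d = ruu H s p - ruu H s z`, `h = p - z`;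
only the levels in `rAc` contribute, so `d = Λ h + e` with `|Λ| ≤ (8/2^30) Σ 2^t`, `|e| ≤ 20 Σ (2^t h)^2/2^60 ≤ 20 (25/16) rsg/2^60` (`(2^t/2^s)^2 ≤ 2^t/2^s`), `|d| ≤ (10/2^30) Σ 2^t |h| ≤ (25/2)/2^30 rsg`, `d^2 ≤ (625/4)/2^60 rsg^2 ≤ (625/2)/2^60 rsg` (`rsg ≤ 2`). With `a = 1 - ruu H s z ≤ 1`:
`|rg (a - d) - rg a + 2 max(0,a) d| ≤ d^2`, `lam = -2 max(0,a) Λ`; error `≤ 2|e| + d^2 ≤ 375/2^60 rsg`. Also `|rg (a-d) - rg a| ≤ 2 |d|` because `a, a - d ≤ 1`. -/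
def rETA_stmt : Prop := ∀ (H : ℕ → Finset ℤ) (s : ℕ) (z : ℝ), (0 ≤ reta H s z ∧ reta H s z ≤ 1 ∧ reta H (s + 1) z ≤ reta H s z ∧ 0 ≤ rsg H s z) ∧
  (rAc H (3 * 2 ^ 30 - 8) s z = ∅ → ∀ p : ℝ, |p - z| ≤ 5 / 4 / 2 ^ s → reta H s p = 1) ∧
  ((∃ t, t ≤ s ∧ ∃ n ∈ H t, |2 ^ t * z - (n : ℝ)| ≤ 1) → ∀ p : ℝ, |p - z| ≤ 5 / 4 / 2 ^ s → reta H s p = 0) ∧
  ∃ lam : ℝ, |lam| / 2 ^ s ≤ 16 / 2 ^ 30 * rsg H s z ∧ ∀ p : ℝ, |p - z| ≤ 5 / 4 / 2 ^ s →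
    |reta H s p - reta H s z - lam * (p - z)| ≤ 375 / 2 ^ 60 * rsg H s z ∧ |reta H s p - reta H s z| ≤ 25 / 2 ^ 30 * rsg H s z

/-- **rSIG** (short). uses: nothing. Proof. For `s < n` the set `rAc … s z` is the set of the `t ≤ s` in `rAc … (n-1) z`; exchange the sums: `Σ_(t ∈ rAc (n-1)) Σ_(t ≤ s < n) 2^t/2^s ≤ 2 · 2^38`. -/
def rSIG_stmt : Prop := ∀ (H : ℕ → Finset ℤ) (n : ℕ) (z : ℝ), (∀ s < n, (rAc H (3 * 2 ^ 30 - 8) s z).card < 2 ^ 38) → ∑ s ∈ Finset.range n, rsg H s z ≤ 2 ^ 39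

/-- **rHOT** (short/medium). uses: rBAS. What is known at cells which are not hot (not critical).
Proof. If `s < S1` all levels `t ≤ s` of `D.H`, `D.K` are empty: `rAc = ∅`, `rhp = 0`, `rdg = 0` (so `q ≤ 3000·0` is false), `P.T s = ∅`, and `1 ≤ q`. If `S1 ≤ s`: `m = ci s z ∈ rTg s`, `m/2^(s-t) = ci t z ∉ D.H t` for `t < s` and `m ∉ D.H s`, so by `rFP` none of the rules holds at `m`:
`(rAc D.H (rrh 0) s (rlp s m)).card < 2^38`, and `|2^t z - 2^t rlp s m| ≤ 1` shows `rAc D.H (3·2^30-8) s z ⊆ rAc D.H (rrh 0) s (rlp s m)`. The second part is `rFP` for `K`. -/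
def rHOT_stmt : Prop := ∀ (P : RQ) (S : ℕ), RHY P S → ∀ D : RD, ROK P D (S + 1) → ∀ s, s ≤ S →
  (∀ z : ℝ, -1 ≤ z → z < 2 → (∀ t, t ≤ s → ci t z ∉ D.H t) →
    (rAc D.H (3 * 2 ^ 30 - 8) s z).card < 2 ^ 38 ∧ ¬ rT3 P D.H D.K 0 s (ci s z) ∧ ci s z ∉ P.T s) ∧
  ∀ n ∈ rSg s, (∀ t, t ≤ s → n / 2 ^ (s - t) ∉ D.K t) → ¬ rCR P D.H D.K 0 s n

/-- **rVAR** (medium). uses: rBAS, rETA, rSIG, rHOT. The variation of the openness along a branch.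
Proof. `a_s = reta D.H s z` is nonincreasing with values in `[0,1]`; `b_s = reta D.H s (p s) - a_s`. Let `n ≤ S` be the least level with `ci n z ∈ D.H n`, `n = S + 1` if there is none. For `s ≥ n`, `s ≤ S`: `a_s = 0` and `reta D.H s (p s) = 0` (rETA with `|2^n z - ci n z| ≤ 1`), so `b_s = 0`.
For `s0 ≤ s < n`: `|b_s| ≤ 25/2^30 rsg D.H s z`, and `Σ_(s < n) rsg ≤ 2^39` by rHOT and rSIG. `Σ |Δ(a+b)| ≤ (a_(s0) - a_S) + 2 Σ |b_s| ≤ 1 + 2·25·512 = 25601`. -/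
def rVAR_stmt : Prop := ∀ (P : RQ) (S : ℕ), RHY P S → ∀ D : RD, ROK P D (S + 1) → ∀ (z : ℝ) (p : ℕ → ℝ), -1 ≤ z → z < 2 →
  (∀ s, P.s0 ≤ s → s ≤ S → |p s - z| ≤ 5 / 4 / 2 ^ s) → ∑ s ∈ Finset.Ico P.s0 S, |reta D.H (s + 1) (p (s + 1)) - reta D.H s (p s)| ≤ 25601

/-! ## Branches, normalisation, weights -/

/-- **rBRN** (short/medium). uses: rBAS. Points along branches.
Proof. Write `lp = rlp s (ci s x) = x - fr s x/2^s`, `B = ev (P.cm s k)⁻¹`, `C = ev (P.cm s k)`, `C (B u) = u`, `B (C u) = u` (`ev_inv` and its companion). (1) clear. (2) `|B lp - B x| ≤ (1 + 1/2^27)/2^s`, drift `1/2^27/2^s`. (3) `B lp - z = [B lp - B X - (lp - X)] + (lp - X) + [B X - B (C z)]`,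
errors `1/2^27/2^s` and `(1 + 1/2^27)/2^27/2^s`. (4) `rlp s (rcc P s i m) = C (rlp s m) - a`, `0 ≤ a < 1/2^s`, `|C (rlp s m) - C z| ≤ (1 + 1/2^27)/2^s` and has the same sign as `rlp s m - z ≤ 0`; so `rlp s (rcc …) - X ∈ (-9/4,1/4)/2^s`. (5) `(1 + 1/2^27)·3 + 1 ≤ 5`. (6) definition of `rbb`, `rpt`. (7) displacement `≤ 1/4`. -/
def rBRN_stmt : Prop := ∀ (P : RQ) (S : ℕ), RHY P S →
  (∀ n, n ≤ S → RHY P n) ∧
  (∀ (s r k : ℕ) (x : ℝ), P.s0 ≤ s → s ≤ r → r ≤ S → k < P.q → |rpt P s k (ci s x) - ev (P.cm r k)⁻¹ x| ≤ 5 / 4 / 2 ^ s) ∧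
  (∀ (s i : ℕ) (z X : ℝ), P.s0 ≤ s → s ≤ S → i < P.q → |X - ev (P.cm s i) z| ≤ 1 / 2 ^ 27 / 2 ^ s →
    |rpt P s i (ci s X) - z + fr s X / 2 ^ s| ≤ 9 / 4 / 2 ^ 27 / 2 ^ s ∧ |rpt P s i (ci s X) - z| ≤ 5 / 4 / 2 ^ s ∧
      |rlp s (rcc P s i (ci s z)) - X| ≤ 9 / 4 / 2 ^ s) ∧
  (∀ (s k : ℕ) (x : ℝ) (b : ℤ), P.s0 ≤ s → s ≤ S → k < P.q → |rlp s b - x| ≤ 3 / 2 ^ s → |rlp s (rbb P s k b) - ev (P.cm s k)⁻¹ x| ≤ 5 / 2 ^ s) ∧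
  (∀ (s k : ℕ) (n : ℤ), |rlp s (rbb P s k n) - rpt P s k n| ≤ 1 / 2 ^ s) ∧
  ∀ (s k : ℕ) (x : ℝ), P.s0 ≤ s → s ≤ S → k < P.q → |ev (P.cm s k)⁻¹ x - x| ≤ 1 / 4 ∧ |ev (P.cm s k) x - x| ≤ 1 / 4

/-- **rNRM** (short/medium). uses: rETA, rHOT, rBRN. The normalisation.
Proof. By rHOT fewer than `q/100` labels `k` satisfy `rin D.H (rrh 0) s (rlp s (rbb P s k n))`; for the others `p = rpt P s k n` satisfies `rAc D.H (3·2^30 - 8) s p = ∅` (distance `≤ 1/2^s` from `rlp s (rbb P s k n)`), so `reta D.H s p = 1` (rETA with `z = p`). `reta ≤ 1`. -/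
def rNRM_stmt : Prop := ∀ (P : RQ) (S : ℕ), RHY P S → ∀ D : RD, ROK P D (S + 1) → ∀ (s : ℕ) (n : ℤ), P.s0 ≤ s → s ≤ S → n ∈ rSg s →
  (∀ t, t ≤ s → n / 2 ^ (s - t) ∉ D.K t) → 99 / 100 * (P.q : ℝ) ≤ rNN P D.H s n ∧ rNN P D.H s n ≤ P.q

/-- **rWTB** (short/medium). uses: rETA, rNRM. The weights at one level.
Proof. Critical: `t` the least level, `n = k/2^(s-t) ∈ D.K t`; `t ≥ S1`, so `rGK` at `t`: `D.G t n ⊆ range q`, `q ≤ 2 #(D.G t n)`; the sum is `#G/#G = 1`. Not critical, `k ∈ rSg s`: rNRM, `0 ≤ reta ≤ 1`, `1/(99/100 q) ≤ 2/q`. Otherwise `1/q`. -/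
def rWTB_stmt : Prop := ∀ (P : RQ) (S : ℕ), RHY P S → ∀ D : RD, ROK P D (S + 1) → ∀ (s : ℕ) (k : ℤ), P.s0 ≤ s → s ≤ S →
  ∑ i ∈ Finset.range P.q, rwt P D s i k = 1 ∧ ∀ i : ℕ, 0 ≤ rwt P D s i k ∧ rwt P D s i k ≤ 2 / P.q

/-- The point `x` is in a critical cell of level at most `s`. -/
def rcr (D : RD) (s : ℕ) (x : ℝ) : Prop := ∃ t, t ≤ s ∧ ci t x ∈ D.K t

/-- **rWTC** (short). uses: rBAS. The weights along the branch of a point. Proof. `ci s x / 2^(s-t) = ci t x` for `t ≤ s`; `Nat.find` is the least such `t`. -/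
def rWTC_stmt : Prop := ∀ (P : RQ) (D : RD) (x : ℝ) (s i : ℕ), 5 ≤ s →
  (¬ rcr D s x → x ∈ Set.Ico (9 / 32 : ℝ) (23 / 32) → rwt P D s i (ci s x) = reta D.H s (rpt P s i (ci s x)) / rNN P D.H s (ci s x)) ∧
  ∀ τ, τ ≤ s → ci τ x ∈ D.K τ → (∀ t < τ, ci t x ∉ D.K t) →
    (i ∈ D.G τ (ci τ x) → rwt P D s i (ci s x) = 1 / ((D.G τ (ci τ x)).card : ℝ)) ∧ (i ∉ D.G τ (ci τ x) → rwt P D s i (ci s x) = 0)

/-- **rABL** (short). uses: nothing. Summation by parts: with `g s = F s - F s0`, `Σ_(s0 ≤ s < n) a s (g (s+1) - g s) = a (n-1) g n - Σ_(s0 ≤ s < n-1) (a (s+1) - a s) g (s+1)` (induction on `n`). -/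
def rABL_stmt : Prop := ∀ (a F : ℕ → ℝ) (s0 n : ℕ) (B : ℝ), s0 < n → (∀ s, s0 ≤ s → s ≤ n → |F s - F s0| ≤ B) →
  |∑ s ∈ Finset.Ico s0 n, a s * (F (s + 1) - F s)| ≤ B * (|a (n - 1)| + ∑ s ∈ Finset.Ico s0 (n - 1), |a (s + 1) - a s|)

/-- **rWTV** (medium). uses: rBAS, rBRN, rVAR, rNRM, rWTC, rWTB, rETA. The variation of the weights along the branch of `x`.
Proof. For `k < q` put `p_k s = rpt P s k (ci s x)`, `z_k = ev (P.cm S k)⁻¹ x ∈ [-1,2)`; rBRN and rVAR give `Σ |Δ reta| ≤ 25601` for every `k`, so `N_s = rNN P D.H s (ci s x)` has `Σ |N_(s+1) - N_s| ≤ 25601 q`. Let `τ` be the least level with `ci τ x ∈ D.K τ` (`τ = S+1` if there is none up to `S`). If `s + 1 < τ`: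
`|η'/N' - η/N| ≤ |η' - η|/N' + η |N' - N|/(N N')`, `N, N' ≥ 99/100 q` (rNRM, `ci s x ∈ rSg s`); in total at most `25601 (1.02 + 1.03)/q`. At `s + 1 = τ` at most `4/q` (rWTB). For `s ≥ τ` the weights at `s`, `s+1` are equal (rWTC). -/
def rWTV_stmt : Prop := ∀ (P : RQ) (S : ℕ), RHY P S → ∀ D : RD, ROK P D (S + 1) → ∀ (x : ℝ) (i : ℕ), x ∈ Set.Ico (9 / 32 : ℝ) (23 / 32) → i < P.q →
  ∑ s ∈ Finset.Ico P.s0 S, |rwt P D (s + 1) i (ci (s + 1) x) - rwt P D s i (ci s x)| ≤ 2 ^ 16 / P.q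

/-- The functions which are routed: `F s` at the levels `s0 ≤ s ≤ S+1`. -/
def rFF (P : RQ) (S : ℕ) (F : ℕ → ℝ → ℝ) : Prop := (∀ s t, P.s0 ≤ s → s ≤ S + 1 → P.s0 ≤ t → t ≤ S + 1 → ∀ x, |F s x - F t x| ≤ 8) ∧
  ∀ s, P.s0 ≤ s → s ≤ S → ∀ x, x ∉ Set.Ico (9 / 32 : ℝ) (23 / 32) → F (s + 1) x = F s x

/-- **rWTU** (short). uses: rWTB, rWTV, rABL. The sup norm of the routed function. Proof. Zero for `x ∉ [9/32,23/32)`; otherwise rABL with `B = 8`: `8 (2/q + 2^16/q) ≤ 2^20/q`. -/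
def rWTU_stmt : Prop := ∀ (P : RQ) (S : ℕ), P.s0 ≤ S → RHY P S → ∀ D : RD, ROK P D (S + 1) → ∀ F : ℕ → ℝ → ℝ, rFF P S F → ∀ i < P.q, ∀ x : ℝ,
  |∑ s ∈ Finset.Ico P.s0 (S + 1), rwt P D s i (ci s x) * (F (s + 1) x - F s x)| ≤ 2 ^ 20 / P.q

/-! ## Usage and load -/

/-- `X i` is the image of `z` under all the maps of the label `i`, up to a small error. -/
def rNP (P : RQ) (S : ℕ) (z : ℝ) (X : ℕ → ℝ) : Prop := ∀ i < P.q, ∀ s, P.s0 ≤ s → s ≤ S → |X i - ev (P.cm s i) z| ≤ 1 / 2 ^ 27 / 2 ^ s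

open Classical in
/-- **rUSE** (medium/LONG). uses: rBAS, rBRN, rGEO. At every target point at most `q/1000` labels are used by critical cells.
Proof. Induction on `n ≤ S + 1` for `U_n = {i < q : ∃ t < n, ci t (X i) ∈ D.K t, i ∈ D.G t (ci t (X i))}`: `1000 #U_n ≤ q`. `U_(n+1) = U_n ∪ V_n`. If `n < S1` all `D.K t`, `t ≤ n`, are empty. Let `n ≥ S1`. `V_n` is small: let `i ∈ V_n`, `n_i = ci n (X i) ∈ D.K n`, `m = rbb P n i n_i = ci n (rpt P n i n_i)`; by rBRN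
`2^n rpt ∈ (2^n z - 5/4, 2^n z + 1/4)`, so `|m - ci n z| ≤ 2`; the pairs `(n_i, i)` are different, so by `rGK` (last part, for the five cells `m`) `12000 #V_n ≤ 5 q`. If `V_n = ∅` or `n = S1` (then `U_n = ∅`) we are done. Let `n > S1` and `i ∈ V_n`, `b = rbb P (n-1) i (n_i/2)`, `n_i/2 = ci (n-1) (X i)`; `rGK` gives
`3000 rdg P D.K 0 (n-1) b < q`. Every `i' ∈ U_n` is counted in `rdg P D.K 0 (n-1) b`: `|rlp (n-1) b - z| ≤ (9/4)/2^(n-1)`, so `|rlp (n-1) (rcc P (n-1) i' b) - X i'| ≤ 4/2^(n-1)`, and with `t ≤ n - 1`, `ci t (X i') ∈ D.K t`: `|2^t rlp (n-1) (rcc P (n-1) i' b) - ci t (X i')| ≤ 5 ≤ 12`. So `3000 #U_n < q` and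
`12000 (#U_n + #V_n) ≤ 4q + 5q ≤ 12 q`. -/
def rUSE_stmt : Prop := ∀ (P : RQ) (S : ℕ), RHY P S → ∀ D : RD, ROK P D (S + 1) → ∀ (z : ℝ) (X : ℕ → ℝ), rNP P S z X →
  1000 * ((Finset.range P.q).filter (fun i => ∃ t, t ≤ S ∧ ci t (X i) ∈ D.K t ∧ i ∈ D.G t (ci t (X i)))).card ≤ P.q

open Classical in
/-- **rLD1** (medium). uses: rUSE, rWTC. The critical load.
Proof. For a label `i` let `τ ≤ S` be the least level with `ci τ (X i) ∈ D.K τ` (if there is none the inner sum is zero); `τ ≥ S1 ≥ s0`; `rcr D s (X i)` iff `τ ≤ s`. The weights are constant for `s ≥ τ` (rWTC), so the inner sum is `0` or `(1/#G) (F (S+1) (X i) - F τ (X i))`, at most `(2/q) 8` in absolute value, and it is nonzero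
only if `i ∈ D.G τ (ci τ (X i))`, which happens for at most `q/1000` labels (rUSE). -/
def rLD1_stmt : Prop := ∀ (P : RQ) (S : ℕ), RHY P S → ∀ D : RD, ROK P D (S + 1) → ∀ (z : ℝ) (X : ℕ → ℝ), rNP P S z X → ∀ F : ℕ → ℝ → ℝ, rFF P S F →
  |∑ i ∈ Finset.range P.q, ∑ s ∈ Finset.Ico P.s0 (S + 1), (if rcr D s (X i) then rwt P D s i (ci s (X i)) * (F (s + 1) (X i) - F s (X i)) else 0)| ≤ 16 / 1000

/-- The loads are small at the level `s`. -/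
def rF4 (P : RQ) (F : ℕ → ℝ → ℝ) (X : ℕ → ℝ) (s : ℕ) : Prop := |∑ i ∈ Finset.range P.q, F s (X i)| ≤ P.q / 2 ^ 24 ∧
  |∑ i ∈ Finset.range P.q, F (s + 1) (X i)| ≤ P.q / 2 ^ 24 ∧
  (P.S1 ≤ s → |∑ i ∈ Finset.range P.q, fr s (X i) * (F (s + 1) (X i) - F s (X i))| ≤ P.q / 2 ^ 24)

/-- **rLD2** (medium/LONG). uses: rETA, rSIG, rHOT, rBRN, rABL. The main part of the load.
Proof. For `s < n` (`s ≤ S`) write `η_s = reta D.H s z`, `p = rpt P s i (ci s (X i))`, `reta D.H s p = η_s + λ_s (p - z) + err` (rETA), `p - z = - fr s (X i)/2^s + err'` (rBRN), `ΔF = F (s+1) (X i) - F s (X i)`, `|ΔF| ≤ 8`. The sum is I - II + III + E with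
I `= Σ_s η_s (Φ_(s+1) - Φ_s)`, `Φ_s = Σ_i F s (X i)`, `|Φ_s| ≤ q/2^24` for `s0 ≤ s ≤ n`: by rABL `|I| ≤ (2q/2^24)(η_(n-1) + η_(s0) - η_(n-1)) ≤ 2q/2^24`. II `= Σ_s (λ_s/2^s) Σ_i fr s (X i) ΔF`: for `s < S1` all levels `≤ s` of `D.H` are empty, so `rsg = 0`, `λ_s = 0`; for `s ≥ S1` `≤ (|λ_s|/2^s) q/2^24`. By rHOT and rSIG
`Σ_(s < n) rsg D.H s z ≤ 2^39`, so `Σ |λ_s|/2^s ≤ 2^13` and `|II| ≤ 2^13 q/2^24`. `|III| ≤ 8 q · 375/2^60 · 2^39`, `|E| ≤ 8 q · 2^13 · (9/4)/2^27`. Sum `≤ 0.0031 q`. (If `n = s0` the sum is empty.) -/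
def rLD2_stmt : Prop := ∀ (P : RQ) (S : ℕ), RHY P S → ∀ D : RD, ROK P D (S + 1) → ∀ (z : ℝ) (X : ℕ → ℝ), rNP P S z X → -1 ≤ z → z < 2 → ∀ F : ℕ → ℝ → ℝ, rFF P S F →
  ∀ n, P.s0 ≤ n → n ≤ S + 1 → (∀ s < n, ci s z ∉ D.H s) → (∀ s, P.s0 ≤ s → s < n → rF4 P F X s) →
  |∑ s ∈ Finset.Ico P.s0 n, ∑ i ∈ Finset.range P.q, reta D.H s (rpt P s i (ci s (X i))) * (F (s + 1) (X i) - F s (X i))| ≤ 4 / 1000 * P.q

/-- **rLD3** (medium). uses: rBAS, rBRN, rVAR, rNRM, rETA, rABL. The excess of a label which is not critical.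
Proof. Put `N = n - 1 ≥ s0`, `z_k = ev (P.cm N k)⁻¹ x`, `Bad = {k < q : rAc D.H (3·2^30 - 8) N z_k ≠ ∅}`. For `k ∉ Bad` and `s0 ≤ s ≤ N` `reta D.H s (rpt P s k (ci s x)) = 1` (rETA, `rAc` at `s` is contained in `rAc` at `N`, rBRN). For `k ∈ Bad`: `rin D.H (rrh 0) N (rlp N (rbb P N k b))` by rBRN (distance `≤ 5/2^N`, `8 ≥ 5`), so
`#Bad ≤ rhp P D.H 0 N b =: β q`. With `N_s = rNN P D.H s (ci s x) ≥ 99/100 q` (rNRM): `0 ≤ q - N_s ≤ β q`, `Σ_s |N_(s+1) - N_s| ≤ 25601 β q` (rVAR for the level `N` and `k ∈ Bad`; `RHY P N` by rBRN, `ROK P D (N+1)`). `e_s = 1/N_s - 1/q = (q - N_s)/(q N_s) ∈ [0, 1.0102 β/q]`, `Σ |Δ e| ≤ 1.0204·25601 β/q`.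
`a_s = η_s e_s` with `Σ |Δη| ≤ 25601`: `|a_N| + Σ |Δa| ≤ (1.0102 + 25601·1.0102 + 25601·1.0204) β/q ≤ 2^16 β/q`; rABL with `B = 8`. -/
def rLD3_stmt : Prop := ∀ (P : RQ) (S : ℕ), RHY P S → ∀ D : RD, ROK P D (S + 1) → ∀ F : ℕ → ℝ → ℝ, rFF P S F → ∀ (x : ℝ) (i n : ℕ), x ∈ Set.Ico (9 / 32 : ℝ) (23 / 32) → i < P.q →
  P.s0 < n → n ≤ S + 1 → ¬ rcr D (n - 1) x → ∀ b : ℤ, |rlp (n - 1) b - x| ≤ 3 / 2 ^ (n - 1) →
  |∑ s ∈ Finset.Ico P.s0 n, reta D.H s (rpt P s i (ci s x)) * (1 / rNN P D.H s (ci s x) - 1 / P.q) * (F (s + 1) x - F s x)| ≤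
    2 ^ 19 / P.q * (rhp P D.H 0 (n - 1) b / P.q)

open Classical in
/-- **rLD5** (medium). uses: rBAS, rBRN, rVAR, rNRM, rETA, rABL. The same sum for a label which becomes critical before the level `n`.
Proof. Let `τ ≤ n - 1` be the least level with `ci τ x ∈ D.K τ`. `e_s = 1/N_s - 1/q ∈ [0, 0.0102/q]` for `s < τ` (rNRM), `e_s = -1/q` for `s ≥ τ`, so `|e| ≤ 1/q`; `Σ |Δe| ≤ 25601 q/(99/100 q)^2 + 1.0102/q`; `η_s = reta D.H s (rpt P s i (ci s x)) ∈ [0,1]` with variation `≤ 25601` (rVAR, level `N = n-1`).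
`|a_N| + Σ |Δa| ≤ (1 + 25601 + 26121 + 2)/q ≤ 2^16/q`, rABL with `B = 8`. -/
def rLD5_stmt : Prop := ∀ (P : RQ) (S : ℕ), RHY P S → ∀ D : RD, ROK P D (S + 1) → ∀ F : ℕ → ℝ → ℝ, rFF P S F → ∀ (x : ℝ) (i n : ℕ), x ∈ Set.Ico (9 / 32 : ℝ) (23 / 32) → i < P.q →
  P.s0 < n → n ≤ S + 1 → rcr D (n - 1) x →
  |∑ s ∈ Finset.Ico P.s0 n, reta D.H s (rpt P s i (ci s x)) * ((if rcr D s x then 0 else 1 / rNN P D.H s (ci s x)) - 1 / P.q) * (F (s + 1) x - F s x)| ≤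
    2 ^ 19 / P.q

open Classical in
/-- **rLD4** (medium). uses: rBAS, rBRN, rHOT, rLD3, rLD5. The excess.
Proof. `N = n - 1`, `m = ci N z`; by rHOT `¬ rT3 P D.H D.K 0 N m`: `2^30 (Σ_(i ∈ R) rhp P D.H 0 N (rcc P N i m) + q rdg P D.K 0 N m) ≤ q^2`. Labels with `X i ∉ [9/32,23/32)` contribute zero (rFF). Let `X i ∈ [9/32,23/32)`, `b = rcc P N i m`: `|rlp N b - X i| ≤ (9/4)/2^N` (rBRN), so `|rlp N b - 1/2| ≤ 7/32 + (9/4)/2^216 ≤ 22/100`,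
`i ∈ R`. If `¬ rcr D N (X i)` then `¬ rcr D s (X i)` for all `s ≤ N` and rLD3 applies with this `b`. If `rcr D N (X i)`, rLD5 applies and `i` is counted in `rdg P D.K 0 N m`: `|2^t rlp N b - ci t (X i)| ≤ 9/4 + 1 ≤ 12`. Total `≤ (2^19/q^2)(Σ_R rhp + q rdg) ≤ 2^19/2^30 ≤ 1/1000`. -/
def rLD4_stmt : Prop := ∀ (P : RQ) (S : ℕ), RHY P S → ∀ D : RD, ROK P D (S + 1) → ∀ (z : ℝ) (X : ℕ → ℝ), rNP P S z X → -1 ≤ z → z < 2 → ∀ F : ℕ → ℝ → ℝ, rFF P S F →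
  ∀ n, P.s0 < n → n ≤ S + 1 → (∀ s < n, ci s z ∉ D.H s) →
  |∑ i ∈ Finset.range P.q, ∑ s ∈ Finset.Ico P.s0 n, reta D.H s (rpt P s i (ci s (X i))) *
    ((if rcr D s (X i) then 0 else 1 / rNN P D.H s (ci s (X i))) - 1 / P.q) * (F (s + 1) (X i) - F s (X i))| ≤ 1 / 1000

/-- **rLOD** (medium). uses: rBAS, rBRN, rETA, rHOT, rWTC, rLD1, rLD2, rLD4. The load at every point.
Proof. If no `X i`, `i < q`, is in `[9/32,23/32)` the sum is zero. Otherwise `z ∈ [-1,2)`. Let `n ≤ S` be the least level with `ci n z ∈ D.H n`, `n = S + 1` if there is none; `n ≥ S1 ≥ s0` (or `n = S+1`). Split every term by `rcr D s (X i)`: the critical part is rLD1. Not critical and `s ≥ n`: the weight is zero (rWTC, rETA with `t = n`,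
`|2^n z - ci n z| ≤ 1`, `|rpt - z| ≤ (5/4)/2^s`; if `X i ∉ [9/32,23/32)` then `ΔF = 0`). Not critical and `s < n`: weight `= η/N_s = η/q + η (1/N_s - 1/q)`; critical and `s < n`: `0 = η/q + η (0 - 1/q)`. So the non critical part is `(1/q)` (rLD2) + (rLD4), at most `4/1000 + 1/1000` (`rF4` for `s < n` because `ci s z ∉ P.T s` by rHOT). -/
def rLOD_stmt : Prop := ∀ (P : RQ) (S : ℕ), P.s0 ≤ S → RHY P S → ∀ D : RD, ROK P D (S + 1) → ∀ (z : ℝ) (X : ℕ → ℝ), rNP P S z X → ∀ F : ℕ → ℝ → ℝ, rFF P S F →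
  (∀ s, P.s0 ≤ s → s ≤ S → ci s z ∉ P.T s → rF4 P F X s) →
  |∑ i ∈ Finset.range P.q, ∑ s ∈ Finset.Ico P.s0 (S + 1), rwt P D s i (ci s (X i)) * (F (s + 1) (X i) - F s (X i))| ≤ 1 / 40

/-! ## Interface with the maps -/

/-- **rNIM** (short/medium). uses: nothing. Near-identity maps.
Proof. `ev c - id` vanishes outside `(0,1)` and has second derivative `≤ 1/2^29` in absolute value, so its derivative is at most `1/2^29` in absolute value (mean value inequality from the point `0` or `1`). With `u = ev c⁻¹ x`, `v = ev c⁻¹ y`: `|(x - y) - (u - v)| ≤ |u - v|/2^28`, so `|u - v| ≤ 2|x-y|`… `≤ |x - y|/2^27`. `ev c⁻¹ x - x = u - ev c u`.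
`ev c (ev c⁻¹ x) = x = ev c' (ev c'⁻¹ x)`, so `|ev c (ev c⁻¹ x) - ev c (ev c'⁻¹ x)| = |ev c' (ev c'⁻¹ x) - ev c (ev c'⁻¹ x)| ≤ e`. -/
def rNIM_stmt : Prop := ∀ c : DD, Sz c (1 / 2 ^ 29) →
  (∀ x y : ℝ, |ev c x - ev c y - (x - y)| ≤ |x - y| / 2 ^ 28 ∧ |ev c⁻¹ x - ev c⁻¹ y - (x - y)| ≤ |x - y| / 2 ^ 27) ∧
  (∀ d : ℝ, (∀ x, |ev c x - x| ≤ d) → ∀ x, |ev c⁻¹ x - x| ≤ d) ∧
  ∀ (c' : DD) (e : ℝ), (∀ x, |ev c x - ev c' x| ≤ e) → ∀ x, |ev c⁻¹ x - ev c'⁻¹ x| ≤ 2 * e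

/-- **rSLV** (short). uses: nothing. Replacing images by nearby points.
Proof. If `i ∉ near q c s σ y` then `ev (c i) y` is at distance `> 1/2^σ` from the grid of level `s`, so `X i` is in the same cell of level `s` and the difference is at most `B 2^s/2^σ`; otherwise it is at most `2B`, and there are at most `m0` such labels. -/
def rSLV_stmt : Prop := ∀ (q m0 s σ : ℕ) (c : ℕ → DD) (g : ℝ → ℝ) (B : ℝ), 0 ≤ B → SLV q c s σ m0 → PL s B g → ∀ y ∈ Set.Icc (1 / 6 : ℝ) (5 / 6), ∀ X : ℕ → ℝ,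
  (∀ i < q, |X i - ev (c i) y| ≤ 1 / 2 ^ σ) → ∑ i ∈ Finset.range q, |g (X i) - g (ev (c i) y)| ≤ B * (2 * m0 + q * (2 ^ s / 2 ^ σ))

/-- The standing hypotheses on `y`. -/
def rYH (N : ℕ) (y : ℝ → ℝ) : Prop := PA N y ∧ (∀ x, x ∉ Set.Icc (29 / 100 : ℝ) (7 / 10) → y x = 0) ∧ ∀ x, |y x| ≤ 1

/-- **rPLF** (medium). uses: LBM, LEA, LEB, LEN. The functions to be routed, `F s = us s0 s y = Es s y - Es s0 y`.
Proof. `y` is in `BM` (LBM); `|Es s y| ≤ 4` (LEB), so the differences are at most `8`. `us s0 s y` is `PA s` (LEA, `s0 ≤ s`), so by LEN it is Lipschitz with constant `2·8·2^s` on the cells of level `s`, a fortiori on those of level `s+1`; `us s0 (s+1) y` is `PA (s+1)`. `fr s` is Lipschitz with constant `2^s` on the cells of level `s`, `0 ≤ fr ≤ 1`,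
`|Ds s y| ≤ 8`, `Ds s y` is `PA (s+1)`: constant `16·2^(s+1) + 8·2^s ≤ 32·2^(s+1)`. Supports: LEB, `[29/100 - 1/2^s, 7/10 + 1/2^s] ⊆ [9/32, 23/32)` for `s ≥ 10`. The tower property (LEA) for the last line: `Es s (Es (S+1) y) = Es s y` for `s ≤ S + 1`, and `Es s (fun z => 1/2 * g z) = 1/2 * Es s g`. -/
def rPLF_stmt : Prop := ∀ (N s0 : ℕ) (y : ℝ → ℝ), rYH N y → 10 ≤ s0 →
  (∀ s, s0 ≤ s → (∀ x, |Es s y x| ≤ 4 ∧ |us s0 s y x| ≤ 8 ∧ ∀ t, s0 ≤ t → |us s0 s y x - us s0 t y x| ≤ 8) ∧ (∀ x, Ds s y x = us s0 (s + 1) y x - us s0 s y x) ∧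
    (∀ x, x ∉ Set.Ico (9 / 32 : ℝ) (23 / 32) → us s0 s y x = 0 ∧ Ds s y x = 0 ∧ Es s y x = 0) ∧
    PL (s + 1) 32 (us s0 s y) ∧ PL (s + 1) 32 (us s0 (s + 1) y) ∧ PL (s + 1) 32 (fun z => fr s z * Ds s y z)) ∧
  ∀ (S S1 q : ℕ) (c : ℕ → DD) (th : ℝ), s0 ≤ S → ∀ s, s0 ≤ s → s ≤ S →
    BdS q c s0 S1 (th / 2) (fun x => 1 / 2 * Es (S + 1) y x) s = BdS q c s0 S1 th y s

/-- **rSLF** (medium). uses: rSLV, rPLF. The three functions of the level `s` and the sliver property.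
Proof. For `z ∈ [1/6,5/6]`: rSLV with `B = 32` at the grid level `s+1`: `32 (2 m0 + q 2^(s+1)/2^(σ s)) ≤ q/2^27` because `σ s ≥ s + 1 + (s+1)/8`, `(s+1)/8 ≥ 40` and `q ≥ 2^40 (m0 + 1)`. For `z ∉ [1/6,5/6]` all points `X i`, `ev (cm s i) z` are outside `[9/32,23/32)` (displacement `≤ 1/100`), both sums vanish. Take `q0 = 2^40 (m0 + 1)`. -/
def rSLF_stmt : Prop := ∀ m0 : ℕ, ∃ q0 : ℕ, ∀ q s0 : ℕ, q0 ≤ q → q0 ≤ s0 → ∀ (K0 δ : ℝ) (w0 a N S : ℕ) (cm : ℕ → ℕ → DD) (σ : ℕ → ℕ) (y : ℝ → ℝ), rYH N y →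
  HY K0 w0 a q s0 S m0 cm σ δ → (2 : ℝ) ^ (w0 + 3) / 2 ^ s0 ≤ 1 / 100 → ∀ s, s0 ≤ s → s ≤ S → ∀ (z : ℝ) (X : ℕ → ℝ), (∀ i < q, |X i - ev (cm s i) z| ≤ 1 / 2 ^ σ s) →
  |∑ i ∈ Finset.range q, us s0 s y (X i) - ∑ i ∈ Finset.range q, us s0 s y (ev (cm s i) z)| ≤ q / 2 ^ 27 ∧
  |∑ i ∈ Finset.range q, us s0 (s + 1) y (X i) - ∑ i ∈ Finset.range q, us s0 (s + 1) y (ev (cm s i) z)| ≤ q / 2 ^ 27 ∧
  |∑ i ∈ Finset.range q, fr s (X i) * Ds s y (X i) - ∑ i ∈ Finset.range q, fr s (ev (cm s i) z) * Ds s y (ev (cm s i) z)| ≤ q / 2 ^ 27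

/-- **rTDN** (medium/LONG). uses: NMX, rBAS, rPLF, rSLF. Density of the bad cells, and no bad points below `S1 = s0 + w0 - a LL w0`.
Proof. `a` from NMX for `th = 1/2^27`, `r = 0`; `w1` such that `a ≤ w0`, `a LL w0 ≤ w0`, `30 ≤ w0` for `w0 ≥ w1` (`LL w0 = Nat.log 2 w0 + 1`). Fix `s ≤ S`. (i) For `s0 ≤ t ≤ s`: `BdS q (cm t) s0 S1 (1/2^25) y t ⊆ BdS q (cm s) s0 S1 (1/2^26) y t` by rSLF at the level `t` with `X i = ev (cm s i) z`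
(`Mop = Σ/q`, `1/2^25 - 1/2^27 > 1/2^26`). (ii) NMX for `c = cm s`, `N = s + 1` and the function `(1/2) Es (s+1) y` (bounded by `2`, `PA (s+1)`, zero outside `[1/4,3/4]`; gaps for the levels `< s + 1 + w0 + a`): by rPLF its bad sets for `1/2^27` are those of `y` for `1/2^26` (levels `≤ s`). First part: `BdS … = ∅` for the level `s < S1`.
(iii) A cell `m ∈ rRZ T s` of the window `κ` has an ancestor in `T t = rTB q (cm t) …`, `t ≥ S1`, which meets `BdS q (cm s) … (1/2^26) y t`; so `cell s m ⊆ Nb 0 t {k | …}` and `cell s m ⊆ cell ell κ`. The cells are disjoint of measure `1/2^s`: `#/2^s ≤ 2^(3 a LL)/2^(2 w0)/2^ell`. -/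
def rTDN_stmt : Prop := ∀ (K0 : ℝ) (m0 : ℕ), 1 ≤ K0 → ∃ a w1 : ℕ, ∀ w0 : ℕ, w1 ≤ w0 → a * LL w0 ≤ w0 ∧ ∃ q0 : ℕ, ∀ q s0 : ℕ, q0 ≤ q → q0 ≤ s0 →
  ∀ (δ : ℝ) (N S : ℕ) (cm : ℕ → ℕ → DD) (σ : ℕ → ℕ) (y : ℝ → ℝ), rYH N y → δ ≤ 1 / 100 → HY K0 w0 a q s0 S m0 cm σ δ →
  (∀ s, s0 + w0 - a * LL w0 ≤ s → s ≤ S → ∀ κ : ℤ, (rcw (s0 - w0 - 4) s κ (rRZ (rPP q s0 w0 a cm y).T s) : ℝ) ≤
    2 ^ (3 * a * LL w0) / 2 ^ (2 * w0) * 2 ^ (s - (s0 - w0 - 4))) ∧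
  ∀ s, s0 ≤ s → s ≤ S → s < s0 + w0 - a * LL w0 → BdS q (cm s) s0 (s0 + w0 - a * LL w0) (1 / 2 ^ 25) y s = ∅

/-- The neighbours of the cells of `A` (up to 6 cells). -/
noncomputable def rpl (A : Finset ℤ) : Finset ℤ := A.biUnion (fun n => Finset.Icc (n - 6) (n + 6))

/-- **rMXE** (medium). uses: rBAS, LBM, LCS. From `L^2` to the discrete mixing.
Proof. `f` = indicator of `UC s (rpl A)`. Let `m ∈ B`, `x ∈ cell s m`, and `i` with `|rcc P s i m - n| ≤ 4`, `n ∈ A`; then `0 ≤ C x - C (rlp s m) ≤ (1 + 1/2^27)/2^s`, so `ci s (C x) ∈ {rcc, rcc + 1, rcc + 2}` is in `rpl A`, `f (C x) = 1`. So `#{i : …}/q ≤ Mop f x` on `cell s m`; integrate over `cell s m` (measure `1/2^s`) and sum over `m ∈ B`: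
`ree/(q 2^s) ≤ ∫_(UC s B) Mop f ≤ √(#B/2^s) √nsq (Mop f)` (Cauchy-Schwarz, LCS with the indicator of `UC s (B ∩ …)`; cells outside `[0,1]` contribute nothing since there `Mop f = 0`, so one may restrict to cells in `[0,1]`, or use Cauchy-Schwarz directly). `#(rpl A) ≤ 13 #A`. -/
def rMXE_stmt : Prop := ∀ (P : RQ) (s : ℕ) (A B : Finset ℤ) (Lam : ℝ), 1 ≤ P.q → 1 ≤ P.ell → (∀ i < P.q, rMA P s i ∧ Sz (P.cm s i) (1 / 100)) → 0 ≤ Lam →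
  (∀ k ∈ rpl A, cell s k ⊆ Set.Icc (1 / 4 : ℝ) (3 / 4)) → nsq (Mop P.q (P.cm s) ((UC s (rpl A)).indicator 1)) ≤ Lam * (((rpl A).card : ℝ) / 2 ^ s) →
  (ree P s A B : ℝ) ^ 2 ≤ (P.q : ℝ) ^ 2 * B.card * (13 * Lam * A.card)

/-- **rMXD** (short/medium). uses: rBAS. Density of the neighbourhood.
Proof. `UC s (rpl A) ∩ cell s0 k` is the disjoint union of the cells `m ∈ rpl A` with `m/2^(s-s0) = k` (`s0 ≤ s`), all in the window `κ = k/2^(s0-ell)`; such an `m` is within `6 ≤ 2^(s-ell)` of an element of `A`, which is in one of the windows `κ-1, κ, κ+1`: at most `13·3·d` cells. -/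
def rMXD_stmt : Prop := ∀ (ell s0 s : ℕ) (A : Finset ℤ) (d : ℝ), ell ≤ s0 → s0 ≤ s → 6 ≤ 2 ^ (s - ell) → (∀ κ : ℤ, (rcw ell s κ A : ℝ) ≤ d) → ∀ k : ℤ,
  volume.real (UC s (rpl A) ∩ cell s0 k) ≤ 39 * d / 2 ^ s

/-- **rCON** (short/medium). uses: nothing. The constants.
Proof. `2^(Nat.log 2 w0) ≤ w0`, so `2^(LL w0) ≤ 2 w0` and `2^(3 a LL w0) ≤ (2 w0)^(3a)`; `log (1/(K0/2^w0)) ≤ w0`; everything tends to `0` like a polynomial in `w0` divided by `2^w0`; `a (Nat.log 2 w0 + 1) ≤ w0` eventually. -/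
def rCON_stmt : Prop := ∀ (K K0 : ℝ) (a : ℕ), 1 ≤ K → 1 ≤ K0 → ∃ w1 : ℕ, ∀ w0 : ℕ, w1 ≤ w0 → a * LL w0 ≤ w0 ∧ 30 ≤ w0 ∧ K0 / 2 ^ w0 ≤ 1 / 2 ∧
  13 * (K * (K0 / 2 ^ w0) ^ 2 * (1 + Real.log (1 / (K0 / 2 ^ w0))) + K * (39 * (2 ^ 10 * (2 ^ (3 * a * LL w0) / 2 ^ (2 * w0)) * 2 ^ (w0 + 4)))) ≤ 1 / 2 ^ 104

/-- **rMXI** (medium). uses: MIX, rBAS, rNIM, rMXE, rMXD, rCON. The discrete mixing.
Proof. Let `A, B` be as in `rMX`; `ell = s0 - w0 - 4`, `d = 2^10 d1 2^(s-ell)`. The cells of `rpl A` are in `[1/4,3/4]` (`|rlp s n - 1/2| ≤ 24/100`, `7/2^s` small; `s ≥ s0 ≥ 10 w0 ≥ 300`). rMXD gives the density hypothesis of MIX with `den = 39·2^10 d1 2^(s0-ell)` (`39 d/2^s = 39·2^10 d1/2^ell = den/2^s0`). MIX with `λ = K0/2^w0`, `N = N' = s`: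
`nsq ≤ Lam #(rpl A)/2^s`, `Lam = K λ^2 (1 + log (1/λ)) + K den`, `13 Lam ≤ 1/2^104` by rCON; rMXE (`rMA` from rNIM and `NI`; the displacement is at most `2^(w0+3)/2^s0 = 1/2^(ell+1) ≤ 1/100`). -/
def rMXI_stmt : Prop := ∀ (K0 : ℝ) (a : ℕ), 1 ≤ K0 → ∃ w1 : ℕ, ∀ w0 : ℕ, w1 ≤ w0 → ∀ (P : RQ) (s0 s : ℕ), 10 * w0 ≤ s0 → s0 ≤ s → 1 ≤ P.q →
  P.ell = s0 - w0 - 4 → P.d1 = 2 ^ (3 * a * LL w0) / 2 ^ (2 * w0) → NI P.q (P.cm s) (1 / 2 ^ 29) (2 ^ (w0 + 3) / 2 ^ s0) →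
  (∀ s', s0 ≤ s' → s' < s → GAP P.q (P.cm s) s' (K0 / 2 ^ w0)) → rMX P s

/-- **rRHY** (medium). uses: rNIM, rMXI, rTDN. The hypotheses of the routing hold.
Proof. `a` and the first `w1` from rTDN, the second `w1` from rMXI for this `a`; `δ = 1/2^29`; `w0 ≥ 30`. `ell = s0 - w0 - 4`, `S1 = s0 + w0 - a LL w0`, `d1 = 2^(3aLL)/2^(2 w0)`: `S1 - ell = 2 w0 + 4 - a LL w0 ≥ 34`, `2^10 d1 2^(S1-ell) = 2^(14 + 2 a LL) ≥ 8`. `P.T s = ∅` for `s < S1` by the definition of `rTB`. `rMA`: rNIM and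
`2^(w0+3)/2^s0 = 1/2^(ell+1)`; drift: `|ev (cm s i) x - ev (cm t i) x| ≤ 1/2^(σ t + 2) ≤ 1/2^28/2^t`, inverse maps by rNIM with the factor `2`. `rMX`: rMXI (gaps for `s' ≤ s + w0 + a`). Density: rTDN. -/
def rRHY_stmt : Prop := ∀ (K0 : ℝ) (m0 : ℕ), 1 ≤ K0 → ∃ a w1 : ℕ, ∀ w0 : ℕ, w1 ≤ w0 → a * LL w0 ≤ w0 ∧ 30 ≤ w0 ∧ ∃ q0 : ℕ, ∀ q s0 : ℕ, q0 ≤ q → q0 ≤ s0 →
  10 * w0 ≤ s0 ∧ ∀ (N S : ℕ) (cm : ℕ → ℕ → DD) (σ : ℕ → ℕ) (y : ℝ → ℝ), rYH N y → HY K0 w0 a q s0 S m0 cm σ (1 / 2 ^ 29) →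
  RHY (rPP q s0 w0 a cm y) S ∧ ∀ s, s0 ≤ s → s ≤ S → s < s0 + w0 - a * LL w0 → BdS q (cm s) s0 (s0 + w0 - a * LL w0) (1 / 2 ^ 25) y s = ∅

/-! The final statement `ROU_stmt` (in RDefs2) uses: rRHY, rEXT, rWTB, rWTU, rLOD, rSLF, rPLF, rBAS. Proof: `δ = 1/2^29`, `B0 = 2^21`. Extension: rEXT. Weights: rWTB. `|vf| ≤ 4/q + 2^20/q` (rPLF, rWTU with `F s = us s0 s y`). Load: `X i = ev (c i) x + t i`, `|X i - ev (cm s i) x| ≤ 3/2^(σ s + 2) ≤ 1/2^(σ s)`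
(`σ s ≤ σ S`), `≤ 1/2^27/2^s`; `vf (X i) - Es s0 y (X i)/q = Σ_s rwt · Ds s y (X i)`; rLOD with `rF4` from rSLF: if `ci s x ∉ T s` then `x ∉ BdS q (cm s) s0 S1 (1/2^25) y s` (for `S1 ≤ s` by the definition of `rTB`, if `x ∈ [-1,2)`; for `s < S1` the set is empty; for `x ∉ [-1,2)` all sums are zero), so the sums at `ev (cm s i) x` are at most
`q/2^25`, those at `X i` at most `q/2^25 + q/2^27 ≤ q/2^24`. `RLC_stmt` (in RDefs2) uses: rLOC. `RST_stmt` (in RDefs2): all levels `s < s0 ≤ S1` of the empty data are empty. -/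

end Pool.Agent.helper90.DH
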